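import Pool.Agent.T9h90.EF.Upper
import Pool.Agent.T9h90.FT.Main

/-!
# The extended Frege refutations of the graph clauses
-/

set_option autoImplicit false
set_option linter.unusedSectionVars false

namespace Pool.Agent.T9h90.EF

open Finset Classical

open Pool.Agent.T9h49.RK

section

variable {P : Type} [Fintype P]

/-- the list of the numbers of the variables in `U` -/
noncomputable def ul (U : Finset P) : List ℕ := U.toList.map num

theorem lits (l : List P) : l.Nodup → ∀ τ : List Bool, τ.length = l.length →
    ∃ T : Finset P, (∀ p ∈ T, p ∈ l) ∧ (T.card % 2 = 1 ↔ pb τ = true) ∧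
      ((l.map num).zip τ).map (fun p => lt p.2 (.var p.1)) = l.map (lit T) := by
  induction l with
  | nil =>
    intro _ τ hτ
    obtain rfl : τ = [] := List.eq_nil_of_length_eq_zero hτ
    exact ⟨∅, by simp, by simp [pb], by simp⟩
  | cons p l ih =>
    intro hnd τ hτ
    obtain ⟨b, τ, rfl⟩ : ∃ b τ', τ = b :: τ' := by
      cases τ with
      | nil => simp at hτ
      | cons b τ => exact ⟨b, τ, rfl⟩
    obtain ⟨hp, hnd⟩ := List.nodup_cons.mp hnd
    obtain ⟨T, h1, h2, h3⟩ := ih hnd τ (by simpa using hτ)
    have hpT : p ∉ T := fun h => hp (h1 p h)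
    cases b with
    | false =>
      refine ⟨T, fun p' h => List.mem_cons_of_mem _ (h1 p' h), ?_, ?_⟩
      · rw [h2, pb_cons, Bool.false_xor]
      · simp only [List.map_cons, List.zip_cons_cons, h3]
        rw [lit, if_neg hpT]
        rfl
    | true =>
      refine ⟨insert p T, ?_, ?_, ?_⟩
      · intro p' h
        rcases Finset.mem_insert.mp h with rfl | h
        · exact List.mem_cons_self
        · exact List.mem_cons_of_mem _ (h1 p' h)
      · rw [Finset.card_insert_of_notMem hpT, pb_cons, Bool.true_xor]
        cases hb : pb τ with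
        | false =>
          rw [hb] at h2
          simp only [Bool.not_false, iff_true]
          have : ¬ T.card % 2 = 1 := fun h => by simpa using h2.mp h
          omega
        | true =>
          rw [hb] at h2
          have := h2.mpr rfl
          simp only [Bool.not_true, Bool.false_eq_true, iff_false]
          omega
      · simp only [List.map_cons, List.zip_cons_cons, h3]
        rw [lit, if_pos (Finset.mem_insert_self p T)]
        have h4 : l.map (lit T) = l.map (lit (insert p T)) := by
          refine List.map_congr_left fun p' hp' => ?_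
          have hne : p' ≠ p := fun h => hp (h ▸ hp')
          unfold lit
          by_cases h5 : p' ∈ T
          · rw [if_pos h5, if_pos (Finset.mem_insert_of_mem h5)]
          · rw [if_neg h5, if_neg]
            intro h6
            rcases Finset.mem_insert.mp h6 with h | h
            · exact hne h
            · exact h5 h
        rw [h4]
        rfl

theorem Kc_mem (U : Finset P) (τ : List Bool) (h : τ.length = (ul U).length)
    (hp : pb τ = false) : ∃ T ⊆ U, Even T.card ∧ Kc (ul U) τ = cl U T := by
  obtain ⟨T, h1, h2, h3⟩ := lits U.toList U.nodup_toList τ (by simpa [ul] using h)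
  refine ⟨T, fun p hp => Finset.mem_toList.mp (h1 p hp), ?_, ?_⟩
  · rw [hp] at h2
    rw [Nat.even_iff]
    have : ¬ T.card % 2 = 1 := fun h => by simpa using h2.mp h
    omega
  · unfold Kc cl ul
    rw [h3]

theorem length_ul (U : Finset P) : (ul U).length = U.card := by
  unfold ul
  rw [List.length_map, Finset.length_toList]

theorem count_ul (U : Finset P) (p : P) [Decidable (p ∈ U)] : (ul U).count (num p) = if p ∈ U then 1 else 0 := by
  unfold ul
  have h1 := List.count_map_of_injective U.toList (num : P → ℕ) (fun _ _ h => num_inj h) p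
  rw [h1, List.Nodup.count U.nodup_toList]
  by_cases h : p ∈ U
  · rw [if_pos h, if_pos (Finset.mem_toList.mpr h)]
  · rw [if_neg h, if_neg (fun h' => h (Finset.mem_toList.mp h'))]

end

section

variable {N D q : ℕ}

/-- the blocks -/
noncomputable def blocks (f : Fin (N + 1) × Fin D → Fin (N + 1)) (q : ℕ) : List (List ℕ) :=
  (univ : Finset (Fin (N + 1))).toList.map (fun v => ul (Uv f q v))

theorem count_blocks (f : Fin (N + 1) × Fin D → Fin (N + 1)) (p : Ed N D × Fin q) :
    (blocks f q).flatten.count (num p) = ∑ v, if p ∈ Uv f q v then 1 else 0 := by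
  rw [List.count_flatten, blocks, List.map_map, ← Finset.sum_map_toList]
  congr 1
  refine List.map_congr_left fun v _ => ?_
  exact count_ul (Uv f q v) p

theorem even_count (f : Fin (N + 1) × Fin D → Fin (N + 1)) (k : ℕ)
    (hk : k < Fintype.card (Ed N D × Fin q)) : (blocks f q).flatten.count k % 2 = 0 := by
  obtain ⟨p, rfl⟩ : ∃ p : Ed N D × Fin q, num p = k :=
    ⟨(Fintype.equivFin _).symm ⟨k, hk⟩, by simp [num]⟩
  rw [count_blocks, ← Nat.even_iff, ← ZMod.natCast_eq_zero_iff_even]
  push_cast
  refine Eq.trans ?_ (sum_inc f p.1)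
  refine Finset.sum_congr rfl fun v _ => ?_
  have h1 : p ∈ Uv f q v ↔ Inc f v p.1 := by simp [Uv]
  by_cases h : Inc f v p.1
  · rw [if_pos h, if_pos (h1.mpr h)]
  · rw [if_neg h, if_neg (fun h' => h (h1.mp h'))]

theorem length_blocks (f : Fin (N + 1) × Fin D → Fin (N + 1)) :
    (blocks f q).length = N + 1 := by
  unfold blocks
  rw [List.length_map, Finset.length_toList, Finset.card_univ, Fintype.card_fin]

theorem length_flatten (f : Fin (N + 1) × Fin D → Fin (N + 1)) :
    (blocks f q).flatten.length ≤ 2 * Fintype.card (Ed N D × Fin q) := by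
  have h1 : (blocks f q).flatten.length = ∑ v, (Uv f q v).card := by
    rw [List.length_flatten, blocks, List.map_map, ← Finset.sum_map_toList]
    congr 1
    refine List.map_congr_left fun v _ => ?_
    exact length_ul _
  rw [h1]
  have h2 : ∀ v, (Uv f q v).card = ∑ p : Ed N D × Fin q, if Inc f v p.1 then 1 else 0 := by
    intro v
    rw [Uv, Finset.card_filter]
  rw [Finset.sum_congr rfl (fun v _ => h2 v), Finset.sum_comm]
  have h3 : ∀ p : Ed N D × Fin q, ∑ v, (if Inc f v p.1 then 1 else 0) ≤ 2 := by
    intro p
    rw [← Finset.card_filter]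
    refine le_trans (Finset.card_le_card (t := {tl p.1, hd f p.1}) ?_) Finset.card_le_two
    intro v hv
    rcases (mem_filter.mp hv).2 with h | h
    · rw [h.1]
      exact Finset.mem_insert_self _ _
    · rw [h.2]
      exact Finset.mem_insert_of_mem (Finset.mem_singleton_self _)
  refine (Finset.sum_le_sum fun p _ => h3 p).trans ?_
  rw [Finset.sum_const, Finset.card_univ, smul_eq_mul, mul_comm]

theorem length_le_sizeL (F : List PForm) : F.length ≤ sizeL F := by
  unfold sizeL
  rw [← List.length_map (f := PForm.size) (as := F)]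
  exact List.length_le_sum_of_one_le _ fun i hi => by
    obtain ⟨A, _, rfl⟩ := List.mem_map.mp hi
    exact size_pos A

/-- **Extended Frege refutations of the graph clauses.** -/
theorem upper_tse {Φ : Set Rule} {κ : ℕ} (hS : Sys Φ κ) (hκ : 1 ≤ κ)
    (f : Fin (N + 1) × Fin D → Fin (N + 1)) (hq : 0 < q) (hN : 1 ≤ N) (hE : Even N) {n W : ℕ}
    (hn : n = Fintype.card (Ed N D × Fin q)) (hW : ∀ v, (Uv f q v).card ≤ W) :
    ∃ π, ERefutes Φ (tse f q) π ∧ (∀ A ∈ π, A.size ≤ κ * (3 * W + 30)) ∧
      π.length ≤ sizeL (tse f q) + κ * (2 * ((2 * n + 1) * (n + 1)) + (n + 1) +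
        n * 2 ^ (W + 2) + n + 2) := by
  have hNn : N + 1 ≤ n := by
    rw [hn, Fintype.card_prod, Fintype.card_sum, Fintype.card_fin, Fintype.card_fin]
    calc N + 1 ≤ (N + 1 + Fintype.card (Fin (N + 1) × Fin D)) * 1 := by omega
      _ ≤ _ := Nat.mul_le_mul_left _ hq
  obtain ⟨π, h1, h2, h3⟩ := upper (bl := blocks f q) (n := n) hS hκ W (tse f q)
    (by
      intro u hu
      obtain ⟨v, _, rfl⟩ := List.mem_map.mp hu
      intro h
      have h4 := congrArg List.length h
      rw [length_ul] at h4
      have h5 := Finset.card_pos.mpr (Uv_nonempty f hq hN v)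
      simp only [List.length_nil] at h4
      omega)
    (by
      intro u hu y hy
      obtain ⟨v, _, rfl⟩ := List.mem_map.mp hu
      obtain ⟨p, _, rfl⟩ := List.mem_map.mp hy
      rw [hn]
      exact (Fintype.equivFin _ p).isLt)
    (by
      intro u hu
      obtain ⟨v, _, rfl⟩ := List.mem_map.mp hu
      rw [length_ul]
      exact hW v)
    (by omega)
    (by
      intro k hk
      rw [hn] at hk
      exact even_count f k hk)
    (by
      rw [length_blocks]
      obtain ⟨x, hx⟩ := hE
      omega)
    (by
      intro A hA i hi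
      have h4 := FT.vars_tse f hq hN A hA hi
      rw [← hn] at h4
      exact mem_range.mp h4)
    (by
      intro A hA
      obtain ⟨v, T, _, _, rfl⟩ := mem_tse.mp hA
      refine (cl_size _ _ (Uv_nonempty f hq hN v)).trans ?_
      exact Nat.mul_le_mul_left 3 (hW v))
    (by
      intro u hu τ hτ hpb
      obtain ⟨v, _, rfl⟩ := List.mem_map.mp hu
      obtain ⟨T, h4, h5, h6⟩ := Kc_mem _ τ hτ hpb
      rw [h6]
      exact mem_tse.mpr ⟨v, T, h4, h5, rfl⟩)
  refine ⟨π, h1, h2, h3.trans ?_⟩
  have h4 := length_le_sizeL (tse f q)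
  have h5 := length_flatten (q := q) f
  rw [← hn] at h5
  refine Nat.add_le_add h4 (Nat.mul_le_mul_left κ ?_)
  rw [length_blocks]
  have h6 : ((blocks f q).flatten.length + 1) * (n + 1) ≤ (2 * n + 1) * (n + 1) :=
    Nat.mul_le_mul_right _ (by omega)
  have h7 : (N + 1) * 2 ^ (W + 2) ≤ n * 2 ^ (W + 2) := Nat.mul_le_mul_right _ hNn
  omega

end

end Pool.Agent.T9h90.EF
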