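import Pool.Agent.T9h49.RK.Defs

/-!
# Extended Frege systems over conjunction, disjunction and negation
-/

set_option autoImplicit false

namespace Pool.Agent.T9h90.EF

open Pool.Agent.T9h49.RK

/-- `Φ` is a Frege system over `∧`, `∨`, `¬`: a finite set of sound rules which is implicationally
complete -/
structure Frege (Φ : Set Rule) : Prop where
  fin : Φ.Finite
  sound : ∀ ρ ∈ Φ, ρ.Sound
  complete : ∀ (Γ : List PForm) (A : PForm),
    (∀ a : ℕ → Bool, (∀ B ∈ Γ, B.eval a = true) → A.eval a = true) →
      ∃ π, Derives Φ Γ π ∧ A ∈ π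

/-- the formula `A ↔ B` -/
def eqv (A B : PForm) : PForm := .or (.and A B) (.and (.neg A) (.neg B))

/-- `EDerives Φ F π`: the list `π` (the last line comes first) is a derivation from `F` by the rules
`Φ` and the extension rule: a line may be `q ↔ A` with a variable `q` which does not occur in `A`,
in `F` or in an earlier line. -/
inductive EDerives (Φ : Set Rule) (F : List PForm) : List PForm → Prop
  | nil : EDerives Φ F []
  | hyp {π : List PForm} (A : PForm) : EDerives Φ F π → A ∈ F → EDerives Φ F (A :: π)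
  | rule {π : List PForm} (ρ : Rule) (σ : ℕ → PForm) : EDerives Φ F π → ρ ∈ Φ →
      (∀ A ∈ ρ.prem, A.subst σ ∈ π) → EDerives Φ F (ρ.concl.subst σ :: π)
  | ext {π : List PForm} (q : ℕ) (A : PForm) : EDerives Φ F π → q ∉ A.vars →
      (∀ B ∈ F, q ∉ B.vars) → (∀ B ∈ π, q ∉ B.vars) → EDerives Φ F (eqv (.var q) A :: π)

/-- `π` is an extended Frege refutation of `F`: the contradiction `x 0 ∧ ¬ x 0` is a line -/
def ERefutes (Φ : Set Rule) (F π : List PForm) : Prop :=
  EDerives Φ F π ∧ PForm.and (.var 0) (.neg (.var 0)) ∈ π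

end Pool.Agent.T9h90.EF
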