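import Mathlib
import Pool.Agent.T9h90.EF.Defs

/-!
# Derivations with bounds
-/

set_option autoImplicit false

namespace Pool.Agent.T9h90.EF

open Pool.Agent.T9h49.RK

theorem size_pos (A : PForm) : 1 ≤ A.size := by
  cases A <;> simp [PForm.size]

theorem subst_subst (σ τ : ℕ → PForm) (A : PForm) :
    (A.subst σ).subst τ = A.subst (fun i => (σ i).subst τ) := by
  induction A with
  | var n => rfl
  | neg A ih => simp only [PForm.subst, ih]
  | and A B iA iB => simp only [PForm.subst, iA, iB]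
  | or A B iA iB => simp only [PForm.subst, iA, iB]

theorem size_subst_le {σ : ℕ → PForm} {M : ℕ} (hM : ∀ i, (σ i).size ≤ M) (A : PForm) :
    (A.subst σ).size ≤ A.size * M := by
  have h1 : 1 ≤ M := (size_pos _).trans (hM 0)
  induction A with
  | var n => simpa [PForm.subst, PForm.size] using hM n
  | neg A ih =>
    simp only [PForm.subst, PForm.size]
    nlinarith
  | and A B iA iB =>
    simp only [PForm.subst, PForm.size]
    nlinarith
  | or A B iA iB =>
    simp only [PForm.subst, PForm.size]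
    nlinarith

/-- derivations from a set of hypotheses -/
inductive Der (Φ : Set Rule) (Γ : Set PForm) : List PForm → Prop
  | nil : Der Φ Γ []
  | hyp {π : List PForm} {A : PForm} : Der Φ Γ π → A ∈ Γ → Der Φ Γ (A :: π)
  | rule {π : List PForm} {ρ : Rule} (σ : ℕ → PForm) : Der Φ Γ π → ρ ∈ Φ →
      (∀ A ∈ ρ.prem, A.subst σ ∈ π) → Der Φ Γ (ρ.concl.subst σ :: π)

/-- from `Γ` all of `Δ` is derived with at most `n` lines of size at most `m` -/
def Ded (Φ : Set Rule) (m n : ℕ) (Γ Δ : Set PForm) : Prop :=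
  ∃ π, Der Φ Γ π ∧ (∀ A ∈ π, A.size ≤ m) ∧ π.length ≤ n ∧ ∀ A ∈ Δ, A ∈ π

variable {Φ : Set Rule}

theorem Der.mono {Γ Γ' : Set PForm} {π : List PForm} (h : Der Φ Γ π) (hΓ : ∀ A ∈ Γ, A ∈ Γ') :
    Der Φ Γ' π := by
  induction h with
  | nil => exact Der.nil
  | hyp _ h ih => exact Der.hyp ih (hΓ _ h)
  | rule σ _ h1 h2 ih => exact Der.rule σ ih h1 h2

theorem Der.subst {Γ : List PForm} {π : List PForm} (h : Derives Φ Γ π) (σ : ℕ → PForm) :
    Der Φ {A | ∃ B ∈ Γ, A = B.subst σ} (π.map (PForm.subst σ)) := by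
  induction h with
  | nil => exact Der.nil
  | hyp A _ h ih => exact Der.hyp ih ⟨_, h, rfl⟩
  | rule ρ τ _ h1 h2 ih =>
    rw [List.map_cons, subst_subst]
    refine Der.rule _ ih h1 fun p hp => ?_
    rw [← subst_subst]
    exact List.mem_map_of_mem (h2 p hp)

theorem Ded.mono {m n m' n' : ℕ} {Γ Δ Γ' Δ' : Set PForm} (h : Ded Φ m n Γ Δ)
    (hm : m ≤ m') (hn : n ≤ n') (hΓ : ∀ A ∈ Γ, A ∈ Γ') (hΔ : ∀ A ∈ Δ', A ∈ Δ) :
    Ded Φ m' n' Γ' Δ' := by
  obtain ⟨π, h1, h2, h3, h4⟩ := h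
  exact ⟨π, h1.mono hΓ, fun A hA => (h2 A hA).trans hm, h3.trans hn, fun A hA => h4 A (hΔ A hA)⟩

theorem Der.join {Γ Δ : Set PForm} {π : List PForm} (h : Der Φ Γ π) (hΔ : ∀ A ∈ Δ, A ∈ π)
    {π' : List PForm} (h' : Der Φ (Γ ∪ Δ) π') :
    ∃ π'', Der Φ Γ π'' ∧ (∀ A ∈ π, A ∈ π'') ∧ (∀ A ∈ π', A ∈ π'') ∧
      (∀ A ∈ π'', A ∈ π ∨ A ∈ π') ∧ π''.length ≤ π.length + π'.length := by
  induction h' with
  | nil => exact ⟨π, h, fun _ h => h, fun _ h => absurd h List.not_mem_nil, fun _ h => Or.inl h,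
      by simp⟩
  | @hyp π' φ _ hφ ih =>
    obtain ⟨π'', h1, h2, h3, h4, h5⟩ := ih
    rcases hφ with hφ | hφ
    · refine ⟨φ :: π'', Der.hyp h1 hφ, fun ψ hψ => List.mem_cons_of_mem _ (h2 ψ hψ), ?_, ?_, ?_⟩
      · intro ψ hψ
        rcases List.mem_cons.1 hψ with rfl | hψ
        · exact List.mem_cons_self
        · exact List.mem_cons_of_mem _ (h3 ψ hψ)
      · intro ψ hψ
        rcases List.mem_cons.1 hψ with rfl | hψ
        · exact Or.inr List.mem_cons_self
        · rcases h4 ψ hψ with h | h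
          · exact Or.inl h
          · exact Or.inr (List.mem_cons_of_mem _ h)
      · simp only [List.length_cons]; omega
    · refine ⟨π'', h1, h2, ?_, ?_, ?_⟩
      · intro ψ hψ
        rcases List.mem_cons.1 hψ with rfl | hψ
        · exact h2 _ (hΔ _ hφ)
        · exact h3 ψ hψ
      · intro ψ hψ
        rcases h4 ψ hψ with h | h
        · exact Or.inl h
        · exact Or.inr (List.mem_cons_of_mem _ h)
      · simp only [List.length_cons]; omega
  | @rule π' r σ _ hr hp ih =>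
    obtain ⟨π'', h1, h2, h3, h4, h5⟩ := ih
    refine ⟨_, Der.rule σ h1 hr fun p hpr => h3 _ (hp p hpr),
      fun ψ hψ => List.mem_cons_of_mem _ (h2 ψ hψ), ?_, ?_, ?_⟩
    · intro ψ hψ
      rcases List.mem_cons.1 hψ with rfl | hψ
      · exact List.mem_cons_self
      · exact List.mem_cons_of_mem _ (h3 ψ hψ)
    · intro ψ hψ
      rcases List.mem_cons.1 hψ with rfl | hψ
      · exact Or.inr List.mem_cons_self
      · rcases h4 ψ hψ with h | h
        · exact Or.inl h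
        · exact Or.inr (List.mem_cons_of_mem _ h)
    · simp only [List.length_cons]; omega

theorem Ded.trans {m n n' : ℕ} {Γ Δ Δ' : Set PForm} (h : Ded Φ m n Γ Δ)
    (h' : Ded Φ m n' (Γ ∪ Δ) Δ') : Ded Φ m (n + n') Γ (Δ ∪ Δ') := by
  obtain ⟨π, h1, h2, h3, h4⟩ := h
  obtain ⟨π', h1', h2', h3', h4'⟩ := h'
  obtain ⟨π'', g1, g2, g3, g4, g5⟩ := h1.join h4 h1'
  refine ⟨π'', g1, ?_, by omega, ?_⟩
  · intro ψ hψ
    rcases g4 ψ hψ with h | h
    · exact h2 ψ h
    · exact h2' ψ h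
  · rintro ψ (hψ | hψ)
    · exact g2 ψ (h4 ψ hψ)
    · exact g3 ψ (h4' ψ hψ)

theorem Ded.union {m n n' : ℕ} {Γ Δ Δ' : Set PForm} (h : Ded Φ m n Γ Δ)
    (h' : Ded Φ m n' Γ Δ') : Ded Φ m (n + n') Γ (Δ ∪ Δ') :=
  h.trans (h'.mono le_rfl le_rfl (fun _ h => Or.inl h) (fun _ h => h))

theorem Ded.cut {m n n' : ℕ} {Γ Δ Δ' : Set PForm} (h : Ded Φ m n Γ Δ)
    (h' : Ded Φ m n' Δ Δ') : Ded Φ m (n + n') Γ Δ' :=
  (h.trans (h'.mono le_rfl le_rfl (fun _ h => Or.inr h) (fun _ h => h))).mono le_rfl le_rfl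
    (fun _ h => h) (fun _ h => Or.inr h)

theorem Ded.empty {m n : ℕ} {Γ : Set PForm} : Ded Φ m n Γ ∅ :=
  ⟨[], Der.nil, by simp, by simp, by simp⟩

/-- an inductive family of goals: `Δ 0, …, Δ k` -/
theorem Ded.iter {m n : ℕ} {Γ : Set PForm} (Δ : ℕ → Set PForm) (k : ℕ)
    (h0 : Ded Φ m n Γ (Δ 0)) (h : ∀ i < k, Ded Φ m n (Γ ∪ Δ i) (Δ (i + 1))) :
    Ded Φ m ((k + 1) * n) Γ {A | ∃ i ≤ k, A ∈ Δ i} := by
  induction k with
  | zero =>
    refine h0.mono le_rfl (by omega) (fun _ h => h) ?_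
    rintro A ⟨i, hi, hA⟩
    obtain rfl : i = 0 := by omega
    exact hA
  | succ k ih =>
    have h1 := ih fun i hi => h i (by omega)
    have h2 := h k (by omega)
    refine (h1.trans (h2.mono le_rfl le_rfl ?_ (fun _ h => h))).mono le_rfl ?_ (fun _ h => h) ?_
    · rintro A (hA | hA)
      · exact Or.inl hA
      · exact Or.inr ⟨k, le_rfl, hA⟩
    · exact le_of_eq (by ring)
    · rintro A ⟨i, hi, hA⟩
      rcases Nat.lt_or_ge i (k + 1) with h3 | h3
      · exact Or.inl ⟨i, by omega, hA⟩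
      · obtain rfl : i = k + 1 := by omega
        exact Or.inr hA

/-- finitely many independent goals -/
theorem Ded.list {ι : Type} {m n : ℕ} {Γ : Set PForm} (l : List ι) (g : ι → Set PForm)
    (h : ∀ i ∈ l, Ded Φ m n Γ (g i)) : Ded Φ m (l.length * n) Γ {A | ∃ i ∈ l, A ∈ g i} := by
  induction l with
  | nil => exact Ded.empty.mono le_rfl le_rfl (fun _ h => h) (by simp)
  | cons a l ih =>
    have h1 := h a List.mem_cons_self
    have h2 := ih fun i hi => h i (List.mem_cons_of_mem _ hi)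
    refine (h1.union h2).mono le_rfl ?_ (fun _ h => h) ?_
    · simp only [List.length_cons]; ring_nf; exact le_rfl
    · rintro A ⟨i, hi, hA⟩
      rcases List.mem_cons.1 hi with rfl | hi
      · exact Or.inl hA
      · exact Or.inr ⟨i, hi, hA⟩

/-- `Inf Φ κ Γ A`: all instances of the inference have derivations with `κ` lines -/
def Inf (Φ : Set Rule) (κ : ℕ) (Γ : List PForm) (A : PForm) : Prop :=
  ∀ (σ : ℕ → PForm) (M : ℕ), (∀ i, (σ i).size ≤ M) →
    Ded Φ (κ * M) κ {B | ∃ p ∈ Γ, B = p.subst σ} {A.subst σ}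

theorem Inf.mono {κ κ' : ℕ} {Γ : List PForm} {A : PForm} (h : Inf Φ κ Γ A) (hk : κ ≤ κ') :
    Inf Φ κ' Γ A := fun σ M hM => (h σ M hM).mono (Nat.mul_le_mul_right M hk) hk
      (fun _ h => h) (fun _ h => h)

theorem inf_exists (hΦ : Frege Φ) (Γ : List PForm) (A : PForm)
    (h : ∀ a : ℕ → Bool, (∀ B ∈ Γ, B.eval a = true) → A.eval a = true) :
    ∃ κ, Inf Φ κ Γ A := by
  obtain ⟨π, h1, h2⟩ := hΦ.complete Γ A h
  refine ⟨sizeL π + π.length, fun σ M hM => ?_⟩
  refine ⟨π.map (PForm.subst σ), Der.subst h1 σ, ?_, by simp, ?_⟩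
  · intro B hB
    obtain ⟨D, hD, rfl⟩ := List.mem_map.1 hB
    refine (size_subst_le hM D).trans ?_
    have h3 : D.size ≤ sizeL π := List.single_le_sum (by simp) _ (List.mem_map_of_mem hD)
    exact Nat.mul_le_mul_right _ (by omega)
  · intro B hB
    rw [Set.mem_singleton_iff] at hB
    subst hB
    exact List.mem_map_of_mem h2

theorem inf_list (hΦ : Frege Φ) (l : List (List PForm × PForm))
    (h : ∀ s ∈ l, ∀ a : ℕ → Bool, (∀ B ∈ s.1, B.eval a = true) → s.2.eval a = true) :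
    ∃ κ, ∀ s ∈ l, Inf Φ κ s.1 s.2 := by
  induction l with
  | nil => exact ⟨0, by simp⟩
  | cons s l ih =>
    obtain ⟨κ, h1⟩ := ih fun t ht => h t (List.mem_cons_of_mem _ ht)
    obtain ⟨κ', h2⟩ := inf_exists hΦ s.1 s.2 (h s List.mem_cons_self)
    refine ⟨κ + κ', fun t ht => ?_⟩
    rcases List.mem_cons.1 ht with rfl | ht
    · exact h2.mono (by omega)
    · exact (h1 t ht).mono (by omega)

/-- continuation of an extended derivation -/
theorem EDerives.join {F : List PForm} {π : List PForm} (h : EDerives Φ F π)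
    {π' : List PForm} (h' : Der Φ {A | A ∈ π} π') :
    ∃ π'', EDerives Φ F π'' ∧ (∀ A ∈ π, A ∈ π'') ∧ (∀ A ∈ π', A ∈ π'') ∧
      (∀ A ∈ π'', A ∈ π ∨ A ∈ π') ∧ π''.length ≤ π.length + π'.length := by
  induction h' with
  | nil => exact ⟨π, h, fun _ h => h, fun _ h => absurd h List.not_mem_nil, fun _ h => Or.inl h,
      by simp⟩
  | @hyp π' φ _ hφ ih =>
    obtain ⟨π'', h1, h2, h3, h4, h5⟩ := ih
    refine ⟨π'', h1, h2, ?_, ?_, ?_⟩
    · intro ψ hψ
      rcases List.mem_cons.1 hψ with rfl | hψ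
      · exact h2 _ hφ
      · exact h3 ψ hψ
    · intro ψ hψ
      rcases h4 ψ hψ with h | h
      · exact Or.inl h
      · exact Or.inr (List.mem_cons_of_mem _ h)
    · simp only [List.length_cons]; omega
  | @rule π' r σ _ hr hp ih =>
    obtain ⟨π'', h1, h2, h3, h4, h5⟩ := ih
    refine ⟨_, EDerives.rule r σ h1 hr fun p hpr => h3 _ (hp p hpr),
      fun ψ hψ => List.mem_cons_of_mem _ (h2 ψ hψ), ?_, ?_, ?_⟩
    · intro ψ hψ
      rcases List.mem_cons.1 hψ with rfl | hψ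
      · exact List.mem_cons_self
      · exact List.mem_cons_of_mem _ (h3 ψ hψ)
    · intro ψ hψ
      rcases List.mem_cons.1 hψ with rfl | hψ
      · exact Or.inr List.mem_cons_self
      · rcases h4 ψ hψ with h | h
        · exact Or.inl h
        · exact Or.inr (List.mem_cons_of_mem _ h)
    · simp only [List.length_cons]; omega

end Pool.Agent.T9h90.EF
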