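import Pool.Agent.T9h90.FT.Main

/-!
# Sparse graphs of bounded degree with expansion
-/

set_option autoImplicit false
set_option linter.unusedSectionVars false

namespace Pool.Agent.T9h90.EF

open Finset Classical

open Pool.Agent.T9h49.RK Pool.Agent.T9h90.FT

variable {N D : ℕ}

/-- the edges which lead to vertices of large in-degree become loops -/
noncomputable def trim (f : Fin (N + 1) × Fin D → Fin (N + 1)) (d : ℕ)
    (p : Fin (N + 1) × Fin D) : Fin (N + 1) :=
  if indeg f (f p) ≤ d then f p else p.1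

theorem outd_trim (f : Fin (N + 1) × Fin D → Fin (N + 1)) (d : ℕ) (A : Finset (Fin (N + 1))) :
    outd f A ≤ outd (trim f d) A + (univ.filter (fun p => d < indeg f (f p))).card := by
  unfold outd
  refine le_trans (Finset.card_le_card ?_) (Finset.card_union_le _ _)
  intro p hp
  obtain ⟨_, h1, h2⟩ := mem_filter.mp hp
  rw [mem_union, mem_filter, mem_filter]
  by_cases h : indeg f (f p) ≤ d
  · left
    refine ⟨mem_univ _, h1, ?_⟩
    rwa [trim, if_pos h]
  · right
    exact ⟨mem_univ _, by omega⟩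

theorem card_trim (f : Fin (N + 1) × Fin D → Fin (N + 1)) (d : ℕ) {C : ℝ}
    (hf : ∑ v, (4 : ℝ) ^ indeg f v ≤ C * ((N : ℝ) + 1)) (hC : 2 * C ≤ 2 ^ d) :
    2 * ((univ.filter (fun p => d < indeg f (f p))).card : ℝ) ≤ (N : ℝ) + 1 := by
  have h1 : ((univ.filter (fun p => d < indeg f (f p))).card : ℝ) =
      ∑ v, if d < indeg f v then (indeg f v : ℝ) else 0 := by
    rw [Finset.card_filter]
    push_cast
    have h2 : ∀ p : Fin (N + 1) × Fin D, (if d < indeg f (f p) then (1 : ℝ) else 0) =
        ∑ v, if f p = v then (if d < indeg f v then (1 : ℝ) else 0) else 0 := by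
      intro p
      rw [Finset.sum_ite_eq, if_pos (mem_univ _)]
    rw [Finset.sum_congr rfl (fun p _ => h2 p), Finset.sum_comm]
    refine Finset.sum_congr rfl fun v _ => ?_
    rw [← Finset.sum_filter, Finset.sum_const, nsmul_eq_mul]
    split
    · rw [mul_one, indeg]
    · rw [mul_zero]
  have h3 : ∀ v, (if d < indeg f v then (indeg f v : ℝ) else 0) ≤
      4 ^ indeg f v / 2 ^ d := by
    intro v
    split
    · rename_i h
      rw [le_div_iff₀ (by positivity)]
      have h4 : (4 : ℝ) ^ indeg f v = 2 ^ indeg f v * 2 ^ indeg f v := by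
        rw [← mul_pow]
        norm_num
      rw [h4]
      refine mul_le_mul ?_ (pow_le_pow_right₀ (by norm_num) h.le) (by positivity) (by positivity)
      exact_mod_cast Nat.lt_two_pow_self.le
    · positivity
  rw [h1]
  have h4 := Finset.sum_le_sum (s := univ) (fun v _ => h3 v)
  rw [← Finset.sum_div] at h4
  have h5 : (∑ v, (4 : ℝ) ^ indeg f v) / 2 ^ d ≤ C * ((N : ℝ) + 1) / 2 ^ d :=
    div_le_div_of_nonneg_right hf (by positivity)
  have h6 : C * ((N : ℝ) + 1) / 2 ^ d ≤ ((N : ℝ) + 1) / 2 := by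
    rw [div_le_div_iff₀ (by positivity) (by norm_num)]
    have : (0 : ℝ) ≤ (N : ℝ) + 1 := by positivity
    nlinarith
  linarith

theorem inc_trim (f : Fin (N + 1) × Fin D → Fin (N + 1)) (d : ℕ) (v : Fin (N + 1)) :
    (univ.filter (fun e : Ed N D => Inc (trim f d) v e)).card ≤ D + 2 + d := by
  have h3 : (univ.filter (fun e : Ed N D => Inc (trim f d) v e)) ⊆
      (({Sum.inl v, Sum.inl (v - 1)} : Finset (Ed N D)) ∪
      (({v} ×ˢ (univ : Finset (Fin D))).image (fun p => (Sum.inr p : Ed N D)))) ∪
      (univ.filter (fun p : Fin (N + 1) × Fin D => f p = v ∧ indeg f v ≤ d)).image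
        (fun p => (Sum.inr p : Ed N D)) := by
    intro e he
    rw [mem_union, mem_union]
    rcases e with u | p
    · have he' : v = tl (Sum.inl u : Ed N D) ∨ v = hd (trim f d) (Sum.inl u : Ed N D) := by
        rcases (mem_filter.mp he).2 with ⟨h, _⟩ | ⟨_, h⟩
        · exact Or.inl h
        · exact Or.inr h
      left; left
      rcases he' with h | h
      · have h' : v = u := h
        rw [h']; simp
      · have h' : v = u + 1 := h
        rw [h']; simp
    · rcases (mem_filter.mp he).2 with ⟨h, _⟩ | ⟨h1, h⟩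
      · left; right
        have h' : v = p.1 := h
        exact mem_image.mpr ⟨p, by simp [h'], rfl⟩
      · right
        have h2 : v = trim f d p := h
        have h1' : v ≠ p.1 := h1
        unfold trim at h2
        by_cases h4 : indeg f (f p) ≤ d
        · rw [if_pos h4] at h2
          exact mem_image.mpr ⟨p, mem_filter.mpr ⟨mem_univ _, h2.symm, h2 ▸ h4⟩, rfl⟩
        · rw [if_neg h4] at h2
          exact absurd h2 h1'
  refine (Finset.card_le_card h3).trans ((Finset.card_union_le _ _).trans ?_)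
  have c1 : (({Sum.inl v, Sum.inl (v - 1)} : Finset (Ed N D))).card ≤ 2 :=
    Finset.card_le_two
  have c2 : ((({v} ×ˢ (univ : Finset (Fin D))).image
      (fun p => (Sum.inr p : Ed N D)))).card ≤ D := by
    refine Finset.card_image_le.trans ?_
    simp
  have c3 : ((univ.filter (fun p : Fin (N + 1) × Fin D => f p = v ∧ indeg f v ≤ d)).image
        (fun p => (Sum.inr p : Ed N D))).card ≤ d := by
    refine Finset.card_image_le.trans ?_
    by_cases h : indeg f v ≤ d
    · refine le_trans (Finset.card_le_card ?_) h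
      intro p hp
      exact mem_filter.mpr ⟨mem_univ _, (mem_filter.mp hp).2.1⟩
    · rw [Finset.filter_false_of_mem (fun p _ hp => h hp.2)]
      simp
  have c4 := Finset.card_union_le ({Sum.inl v, Sum.inl (v - 1)} : Finset (Ed N D))
    ((({v} ×ˢ (univ : Finset (Fin D))).image (fun p => (Sum.inr p : Ed N D))))
  omega

theorem card_Uv_trim {q : ℕ} (f : Fin (N + 1) × Fin D → Fin (N + 1)) (d : ℕ)
    (v : Fin (N + 1)) : (Uv (trim f d) q v).card ≤ q * (D + 2 + d) := by
  have h1 : Uv (trim f d) q v =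
      (univ.filter (fun e => Inc (trim f d) v e)) ×ˢ (univ : Finset (Fin q)) := by
    ext p
    simp [Uv]
  rw [h1, Finset.card_product, Finset.card_univ, Fintype.card_fin, mul_comm]
  exact Nat.mul_le_mul_left _ (inc_trim f d v)

theorem star_trim (f : Fin (N + 1) × Fin D → Fin (N + 1)) (d : ℕ) (v : Fin (N + 1)) :
    (dl (Inc (trim f d)) {v}).card ≤ D + 2 + d := by
  refine le_trans (Finset.card_le_card ?_) (inc_trim f d v)
  intro e he
  have h2 := (mem_filter.mp he).2
  rw [Finset.filter_singleton] at h2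
  refine mem_filter.mpr ⟨mem_univ _, ?_⟩
  by_contra h3
  rw [if_neg h3] at h2
  simp at h2

theorem exp_trim (hN : 3 ≤ N) (f : Fin (N + 1) × Fin D → Fin (N + 1))
    (hf : ∀ A : Finset (Fin (N + 1)), N + 1 < 2 * 2 * A.card → 2 * A.card ≤ N + 1 →
      N + 1 ≤ outd f A) (d : ℕ) {C : ℝ} (hf' : ∑ v, (4 : ℝ) ^ indeg f v ≤ C * ((N : ℝ) + 1))
    (hC : 2 * C ≤ 2 ^ d) : Exp (Inc (trim f d)) (N / 2) where
  conn A h1 h2 := connected (trim f d) A h1 h2
  med A h1 h2 := by
    rw [Fintype.card_fin] at h1 h2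
    have h3 := hf A (by omega) h2
    have h4 := outd_trim f d A
    have h5 := outd_le (trim f d) A
    have h6 : 2 * (univ.filter (fun p => d < indeg f (f p))).card ≤ N + 1 := by
      exact_mod_cast card_trim f d hf' hC
    omega
  four := by
    rw [Fintype.card_fin]
    omega

theorem size_tse {q W : ℕ} (f : Fin (N + 1) × Fin D → Fin (N + 1)) (hq : 0 < q) (hN : 1 ≤ N)
    (hW : ∀ v, (Uv f q v).card ≤ W) : sizeL (tse f q) ≤ 3 * 4 ^ W * (N + 1) := by
  rw [sizeL_tse]
  calc ∑ v, sizeL (oddCl (Uv f q v)) ≤ ∑ _v : Fin (N + 1), 3 * 4 ^ W := by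
        refine Finset.sum_le_sum fun v _ => ?_
        refine (oddCl_size _ (Uv_nonempty f hq hN v)).trans (Nat.mul_le_mul_left 3 ?_)
        exact Nat.pow_le_pow_right (by norm_num) (hW v)
    _ = _ := by
        rw [Finset.sum_const, Finset.card_univ, Fintype.card_fin, smul_eq_mul]
        ring

end Pool.Agent.T9h90.EF
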