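import Pool.Agent.T9h90.EF.Inst
import Pool.Agent.T9h90.EF.Trim

/-!
# Separation of Frege refutations with short lines and extended Frege refutations
-/

set_option autoImplicit false
set_option linter.unusedSectionVars false

namespace Pool.Agent.T9h90.EF

open Finset Classical

open Pool.Agent.T9h49.RK Pool.Agent.T9h90.FT

/-- lower bound (as in `FT.main`, with clauses of bounded size) and upper bound for the same
clauses -/
theorem both : ∃ c : ℕ → ℝ, (∀ r, 0 < c r) ∧ ∀ (R K : ℕ) (γ : ℝ), 0 < γ → ∃ ε : ℝ, 0 < ε ∧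
    ∃ W : ℕ, ∀ m : ℕ, ∃ n : ℕ, m ≤ n ∧ ∃ F : List PForm,
    (∀ A ∈ F, A.IsClause ∧ A.size ≤ 3 * W ∧ A.vars ⊆ range n) ∧ Unsat F ∧ ε * sizeL F ≤ n ∧
    (∀ (Φ : Set Rule) (κ : ℕ), Sys Φ κ → 1 ≤ κ →
      ∃ π, ERefutes Φ F π ∧ (∀ A ∈ π, A.size ≤ κ * (3 * W + 30)) ∧
      π.length ≤ sizeL F + κ * (2 * ((2 * n + 1) * (n + 1)) + (n + 1) +
        n * 2 ^ (W + 2) + n + 2)) ∧
    ∀ r ≤ R, ∀ Φ : Set Rule, (∀ ρ ∈ Φ, ρ.Sound ∧ ρ.prem.length ≤ r) → ∀ π : List PForm,
      Refutes Φ F π →
      (∀ A ∈ π, tailW n A (c r * n) ≤ 2 ^ (-(γ * n)) ∨ ∃ H : Finset ℕ,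
        (H.card : ℝ) ≤ c r * n ∧ ∑ i ∈ range n \ H, A.occ i ≤ K * n) →
      (2 : ℝ) ^ (ε * n) ≤ π.length := by
  set a : ℕ → ℝ := fun r => 2640 * ((r : ℝ) + 1) with ha
  have ha0 : ∀ r, 0 ≤ a r := fun r => by rw [ha]; positivity
  set c : ℕ → ℝ := fun r => Real.exp (-(a r)) / 3 with hcdef
  have hc : ∀ r, 0 < c r := fun r => by rw [hcdef]; positivity
  refine ⟨c, hc, ?_⟩
  intro R K γ hγ
  have hh := fun r => heavy_tail K (hc r)
  choose q' hq' δ hδ C hC n0 hmain using hh
  obtain ⟨L, hL0, hLγ, hLδ⟩ : ∃ L : ℕ, 0 < L ∧ 5 / γ ≤ L ∧ ∀ r ≤ R, 4 / δ r ≤ L := by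
    refine ⟨⌈5 / γ⌉₊ + ∑ r ∈ range (R + 1), ⌈4 / δ r⌉₊ + 1, by omega, ?_, ?_⟩
    · push_cast
      have h1 := Nat.le_ceil (5 / γ)
      have h2 : (0 : ℝ) ≤ ∑ r ∈ range (R + 1), ((⌈4 / δ r⌉₊ : ℕ) : ℝ) :=
        Finset.sum_nonneg fun _ _ => Nat.cast_nonneg _
      linarith
    · intro r hr
      have h1 := Nat.le_ceil (4 / δ r)
      have h2 : ⌈4 / δ r⌉₊ ≤ ∑ r ∈ range (R + 1), ⌈4 / δ r⌉₊ :=
        Finset.single_le_sum (f := fun r => ⌈4 / δ r⌉₊) (fun _ _ => Nat.zero_le _)
          (mem_range.mpr (by omega))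
      refine h1.trans ?_
      exact_mod_cast (by omega : ⌈4 / δ r⌉₊ ≤ ⌈5 / γ⌉₊ + ∑ r ∈ range (R + 1), ⌈4 / δ r⌉₊ + 1)
  set P : ℕ := ∏ r ∈ range (R + 1), q' r with hP
  have hP0 : 0 < P := Finset.prod_pos fun r _ => hq' r
  set q : ℕ := P * L with hq
  have hq0 : 0 < q := Nat.mul_pos hP0 hL0
  obtain ⟨D, hD⟩ : ∃ D, D = 16 * 2 := ⟨_, rfl⟩
  obtain ⟨C4, hC4, hgraph⟩ := exists_graph 2 (B := (4 : ℝ)) (by norm_num)
  rw [← hD] at hgraph
  obtain ⟨d0, hd0⟩ : ∃ d0 : ℕ, 2 * C4 ≤ 2 ^ d0 := by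
    obtain ⟨d0, h⟩ := pow_unbounded_of_one_lt (2 * C4) (by norm_num : (1 : ℝ) < 2)
    exact ⟨d0, h.le⟩
  obtain ⟨W, hW⟩ : ∃ W : ℕ, W = q * (D + 2 + d0) := ⟨_, rfl⟩
  set Y : ℝ := 3 * 4 ^ W with hY
  have hY0 : 0 < Y := by positivity
  have hqr : (0 : ℝ) < q := by exact_mod_cast hq0
  refine ⟨min (1 / Y) (1 / q), by positivity, W, fun m => ?_⟩
  set X : ℕ := ∑ r ∈ range (R + 1), (n0 r + ⌈C r⌉₊) with hX
  have hX1 : ∀ r ≤ R, n0 r + ⌈C r⌉₊ ≤ X := fun r hr =>
    Finset.single_le_sum (f := fun r => n0 r + ⌈C r⌉₊) (fun _ _ => Nat.zero_le _)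
      (mem_range.mpr (by omega))
  obtain ⟨N, hN⟩ : ∃ N : ℕ, N = 2 * (m + X + 2 * d0 + 8 * R + 68) := ⟨_, rfl⟩
  obtain ⟨f₀, hf1, hf2⟩ := hgraph N
  have hexp := exp_trim (by omega) f₀ hf1 d0 hf2 hd0
  have hUv : ∀ v, (Uv (trim f₀ d0) q v).card ≤ W := fun v => hW ▸ card_Uv_trim f₀ d0 v
  have hstar := star_trim f₀ d0
  generalize trim f₀ d0 = f at hexp hUv hstar
  obtain ⟨M, hM⟩ : ∃ M : ℕ, M = Fintype.card (Ed N D) := ⟨_, rfl⟩
  have hEcard : M = 33 * (N + 1) := by
    rw [hM, Fintype.card_sum, Fintype.card_prod, Fintype.card_fin, Fintype.card_fin, hD]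
    ring
  have hMN : N + 1 ≤ M := by rw [hEcard]; omega
  have hMNr : (N : ℝ) + 1 ≤ M := by exact_mod_cast hMN
  obtain ⟨n, hn⟩ : ∃ n : ℕ, n = Fintype.card (Ed N D × Fin q) := ⟨_, rfl⟩
  have hnM : n = M * q := by rw [hn, Fintype.card_prod, Fintype.card_fin, hM]
  have hnMr : (n : ℝ) = M * q := by exact_mod_cast hnM
  have hMn : M ≤ n := by rw [hnM]; exact Nat.le_mul_of_pos_right M hq0
  have hNE : Even N := ⟨m + X + 2 * d0 + 8 * R + 68, by omega⟩
  refine ⟨n, by omega, tse f q, fun A hA => ⟨tse_clause f hq0 (by omega) A hA, ?_,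
    by rw [hn]; exact vars_tse f hq0 (by omega) A hA⟩, tse_unsat f hq0 (by omega) hNE, ?_,
    fun Φ κ hS hκ => upper_tse hS hκ f hq0 (by omega) hNE hn hUv, ?_⟩
  · obtain ⟨v, T, _, _, rfl⟩ := mem_tse.mp hA
    exact (cl_size _ _ (Uv_nonempty f hq0 (by omega) v)).trans (Nat.mul_le_mul_left 3 (hUv v))
  · have h1 : (sizeL (tse f q) : ℝ) ≤ Y * ((N : ℝ) + 1) := by
      rw [hY]
      exact_mod_cast size_tse f hq0 (by omega) hUv
    calc min (1 / Y) (1 / (q : ℝ)) * (sizeL (tse f q) : ℝ) ≤ 1 / Y * (Y * ((N : ℝ) + 1)) :=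
          mul_le_mul (min_le_left _ _) h1 (Nat.cast_nonneg _) (by positivity)
      _ = (N : ℝ) + 1 := by field_simp
      _ ≤ M := hMNr
      _ ≤ n := by exact_mod_cast hMn
  · intro r hr Φ hΦ π hπ hlines
    obtain ⟨d, hd⟩ : ∃ d : ℕ, d = N / 2 / (2 * (r + 1)) := ⟨_, rfl⟩
    have hd1 : 2 * ((r + 1) * d) ≤ N / 2 := by
      have := Nat.div_mul_le_self (N / 2) (2 * (r + 1))
      rw [← hd] at this
      calc 2 * ((r + 1) * d) = d * (2 * (r + 1)) := by ring
        _ ≤ N / 2 := this
    have hd2 : N / 2 < 2 * ((r + 1) * d) + 2 * (r + 1) := by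
      have := Nat.lt_div_mul_add (a := N / 2) (b := 2 * (r + 1)) (by omega)
      rw [← hd] at this
      calc N / 2 < d * (2 * (r + 1)) + 2 * (r + 1) := this
        _ = _ := by ring
    have hd3 : d ≤ N / 2 / 2 := by
      rw [hd]
      exact Nat.div_le_div_left (by omega) (by norm_num)
    have hlam : c r * (n : ℝ) ≤ Real.exp (-(a r)) * (q * M) := by
      rw [hnMr, hcdef]
      have h1 : (0 : ℝ) ≤ Real.exp (-(a r)) * (q * M) := by positivity
      calc Real.exp (-(a r)) / 3 * ((M : ℝ) * q) = Real.exp (-(a r)) * (q * M) / 3 := by ring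
        _ ≤ _ := by linarith
    have hkill := kill (Inc f) (N / 2) r d hexp hd1 (by
        intro v
        have h1 := hstar v
        omega) hq0 (a r) (ha0 r) (by
        have h1 : (N : ℝ) < 2 * (2 * (((r : ℝ) + 1) * d) + 2 * (r + 1)) := by
          have : N < 2 * (2 * ((r + 1) * d) + 2 * (r + 1)) := by omega
          exact_mod_cast this
        have h2 : (16 * R + 136 : ℝ) ≤ N := by
          have : 16 * R + 136 ≤ N := by omega
          exact_mod_cast this
        have h3 : (r : ℝ) ≤ R := by exact_mod_cast hr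
        have h4 : (Fintype.card (Ed N D) : ℝ) = 33 * (N + 1) := by
          rw [← hM]
          exact_mod_cast hEcard
        rw [h4, ha]
        simp only
        nlinarith) (by rw [← hM]; omega)
      (π.map pull) (semDer f hq0 (by omega) hΦ hπ.1)
      (by
        obtain ⟨A, hA, hfalse⟩ := hπ.2
        exact ⟨pull A, List.mem_map_of_mem hA, fun x => by rw [ev_pull]; exact hfalse _⟩)
      (by
        intro B hB
        obtain ⟨A, hA, rfl⟩ := List.mem_map.mp hB
        rw [← hM]
        rcases hlines A hA with h | ⟨H, hH1, hH2⟩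
        · have h1 : Wt (Real.exp (-(a r)) * (q * M)) (bf (pull A : Fm (Ed N D × Fin q)))
              ≤ tailW n A (c r * n) := by
            rw [hn, ← Wt_pull, ← hn]
            exact Wt_mono hlam _
          refine h1.trans (h.trans ?_)
          have h2 : 5 * (M : ℝ) ≤ γ * n := by
            rw [div_le_iff₀ hγ] at hLγ
            have h3 : L ≤ q := by rw [hq]; exact Nat.le_mul_of_pos_left L hP0
            have h4 : (L : ℝ) ≤ q := by exact_mod_cast h3
            have h5 : (0 : ℝ) ≤ M := Nat.cast_nonneg _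
            rw [hnMr]
            calc 5 * (M : ℝ) ≤ (L * γ) * M := mul_le_mul_of_nonneg_right hLγ h5
              _ ≤ (q * γ) * M :=
                  mul_le_mul_of_nonneg_right (mul_le_mul_of_nonneg_right h4 hγ.le) h5
              _ = _ := by ring
          have h3 := two_rpow_le (x := γ * n) (y := 3 * M) (by
            have h5 : (0 : ℝ) ≤ M := Nat.cast_nonneg _
            linarith) (by positivity)
          rw [neg_mul]
          exact h3
        · have hqq : q = (∏ r' ∈ (range (R + 1)).erase r, q' r') * L * q' r := by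
            have hmem : r ∈ range (R + 1) := mem_range.mpr (by omega)
            rw [hq, hP, ← Finset.mul_prod_erase (range (R + 1)) q' hmem]
            ring
          set b : ℕ := (∏ r' ∈ (range (R + 1)).erase r, q' r') * L with hb
          have hbL : L ≤ b := Nat.le_mul_of_pos_left L (Finset.prod_pos fun r _ => hq' r)
          have hbLr : (L : ℝ) ≤ b := by exact_mod_cast hbL
          have h1 := hmain r (Ed N D × Fin q) (Ed N D × Fin b) (regroup (Ed N D) hqq) (by
            rw [Fintype.card_prod, Fintype.card_fin, ← hM]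
            have h2 := hX1 r hr
            have h3 : M * 1 ≤ M * b := Nat.mul_le_mul_left M (by omega)
            omega) (pull A) (nsp_pull A) (univ.filter (fun v => num v ∈ H)) (by
            rw [← hn]
            refine le_trans ?_ hH1
            exact_mod_cast card_H H) (by
            rw [← hn]
            refine le_trans ?_ hH2
            rw [hn]
            convert card_pull (P := Ed N D × Fin q) A H)
          have h2 : 3 * c r * (Fintype.card (Ed N D × Fin q) : ℝ) =
              Real.exp (-(a r)) * (q * M) := by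
            rw [← hn, hnMr, hcdef]
            ring
          rw [h2] at h1
          refine h1.trans ?_
          have hEb : (Fintype.card (Ed N D × Fin b) : ℝ) = M * b := by
            rw [Fintype.card_prod, Fintype.card_fin, ← hM]
            push_cast
            ring
          rw [hEb]
          have h3 : C r ≤ M := by
            have h4 := Nat.le_ceil (C r)
            have h5 : ⌈C r⌉₊ ≤ M := by
              have := hX1 r hr
              omega
            refine h4.trans ?_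
            exact_mod_cast h5
          have h4 : C r ≤ Real.exp M := by
            have := Real.add_one_le_exp (M : ℝ)
            linarith
          have h5 : 4 ≤ δ r * b := by
            have h6 := hLδ r hr
            rw [div_le_iff₀ (hδ r)] at h6
            calc (4 : ℝ) ≤ L * δ r := h6
              _ ≤ b * δ r := mul_le_mul_of_nonneg_right hbLr (hδ r).le
              _ = _ := by ring
          have hM0 : (0 : ℝ) ≤ M := Nat.cast_nonneg _
          calc C r * Real.exp (-δ r * ((M : ℝ) * b)) ≤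
              Real.exp M * Real.exp (-δ r * ((M : ℝ) * b)) :=
                mul_le_mul_of_nonneg_right h4 (Real.exp_pos _).le
            _ = Real.exp (M - δ r * b * M) := by
                rw [← Real.exp_add]
                ring_nf
            _ ≤ _ := by
                refine Real.exp_le_exp.mpr ?_
                nlinarith)
    rw [List.length_map, ← hM] at hkill
    refine le_trans ?_ hkill
    refine two_rpow_le' ?_ (by positivity)
    calc min (1 / Y) (1 / (q : ℝ)) * (n : ℝ) ≤ 1 / q * (M * q) := by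
          rw [hnMr]
          exact mul_le_mul_of_nonneg_right (min_le_right _ _) (by positivity)
      _ = M := by field_simp

end Pool.Agent.T9h90.EF
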