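import Pool.Agent.T9h90.EF.Basic

/-!
# The inferences
-/

set_option autoImplicit false

namespace Pool.Agent.T9h90.EF

open Pool.Agent.T9h49.RK

/-- the contradiction -/
def ff : PForm := .and (.var 0) (.neg (.var 0))

/-- exclusive or -/
def xr (A B : PForm) : PForm := .or (.and A (.neg B)) (.and (.neg A) B)

/-- `A ↔ B ⊕ p x` -/
def st (p : Bool) (A B x : PForm) : PForm := bif p then eqv A (xr B x) else eqv A B

/-- the literal which is false if `y` is `b` -/
def lt (b : Bool) (y : PForm) : PForm := bif b then .neg y else y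

/-- `A ↔ B ⊕ p` -/
def eqp (p : Bool) (A B : PForm) : PForm := bif p then eqv A (.neg B) else eqv A B

/-- `A ↔ p` -/
def val (p : Bool) (A : PForm) : PForm := bif p then A else .neg A

/-- the variables of the schemes -/
def v (i : ℕ) : PForm := .var i

/-- the contradiction in the schemes -/
def fs : PForm := .and (.var 6) (.neg (.var 6))

theorem eval_xr (a : ℕ → Bool) (A B : PForm) : (xr A B).eval a = xor (A.eval a) (B.eval a) := by
  simp only [xr, PForm.eval]
  cases A.eval a <;> cases B.eval a <;> rfl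

theorem eval_eqv (a : ℕ → Bool) (A B : PForm) : (eqv A B).eval a = (A.eval a == B.eval a) := by
  simp only [eqv, PForm.eval]
  cases A.eval a <;> cases B.eval a <;> rfl

theorem eval_st (a : ℕ → Bool) (p : Bool) (A B x : PForm) :
    (st p A B x).eval a = (A.eval a == xor (B.eval a) (p && x.eval a)) := by
  cases p
  · simp only [st, cond_false, eval_eqv, Bool.false_and, Bool.xor_false]
  · simp only [st, cond_true, eval_eqv, eval_xr, Bool.true_and]

theorem eval_lt (a : ℕ → Bool) (b : Bool) (y : PForm) : (lt b y).eval a = xor b (y.eval a) := by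
  cases b <;> simp [lt, PForm.eval]

theorem eval_eqp (a : ℕ → Bool) (p : Bool) (A B : PForm) :
    (eqp p A B).eval a = (A.eval a == xor p (B.eval a)) := by
  cases p <;> simp [eqp, PForm.eval, eval_eqv]

theorem eval_val (a : ℕ → Bool) (p : Bool) (A : PForm) :
    (val p A).eval a = (A.eval a == p) := by
  cases p <;> simp [val, PForm.eval]

theorem eval_fs (a : ℕ → Bool) : fs.eval a = false := by
  simp [fs, PForm.eval]

/-- the schemes -/
def schemes : List (List PForm × PForm) :=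
  [([eqv (v 0) fs, eqv (v 1) fs], st false (v 0) (v 1) (v 2)),
   ([eqv (v 0) fs], .neg (v 0)),
   ([st false (v 0) (v 1) (v 2), .neg (v 1)], .neg (v 0)),
   ([v 0], .or (v 0) (v 1)),
   ([.or (.or (lt false (v 0)) (v 1)) (v 2), .or (.or (lt true (v 0)) (v 1)) (v 2)],
     .or (v 1) (v 2)),
   ([.or (lt false (v 0)) (v 1), .or (lt true (v 0)) (v 1)], v 1),
   ([v 0, .neg (v 0)], fs)] ++
  ([false, true].flatMap fun b => [false, true].map fun p =>
    ([st b (v 0) (v 1) (v 2), st b (v 3) (v 4) (v 2), st p (v 1) (v 4) (v 5)],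
      st p (v 0) (v 3) (v 5))) ++
  ([false, true].map fun p =>
    ([st true (v 0) (v 1) (v 5), st false (v 3) (v 4) (v 5), st p (v 1) (v 4) (v 5)],
      st (!p) (v 0) (v 3) (v 5))) ++
  ([false, true].map fun b =>
    ([st true (v 0) (v 1) (v 2)], .or (lt b (v 2)) (eqp b (v 0) (v 1)))) ++
  ([false, true].flatMap fun b => [false, true].map fun p =>
    ([.or (v 0) (eqp p (v 1) (v 2)), st true (v 2) (v 3) (v 4)],
      .or (.or (lt b (v 4)) (v 0)) (eqp (xor p b) (v 1) (v 3)))) ++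
  ([false, true].map fun p =>
    ([eqp true (v 0) (v 1), val p (v 1)], val (!p) (v 0)))

theorem schemes_sound : ∀ s ∈ schemes, ∀ a : ℕ → Bool, (∀ B ∈ s.1, B.eval a = true) →
    s.2.eval a = true := by
  intro s hs a h
  simp only [schemes, List.mem_append, List.mem_cons, List.mem_flatMap, List.mem_map,
    List.not_mem_nil, or_false] at hs
  rcases hs with ((((( rfl | rfl | rfl | rfl | rfl | rfl | rfl) | ⟨b, _, p, _, rfl⟩) |
    ⟨p, _, rfl⟩) | ⟨b, _, rfl⟩) | ⟨b, _, p, _, rfl⟩) | ⟨p, _, rfl⟩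
  all_goals
    simp only [List.mem_cons, List.not_mem_nil, or_false, forall_eq_or_imp, forall_eq,
      eval_st, eval_eqv, eval_lt, eval_eqp, eval_val, eval_fs, PForm.eval, v] at h ⊢
  · revert h
    cases a 0 <;> cases a 1 <;> cases a 2 <;> decide
  · revert h
    cases a 0 <;> decide
  · revert h
    cases a 0 <;> cases a 1 <;> cases a 2 <;> decide
  · revert h
    cases a 0 <;> cases a 1 <;> decide
  · revert h
    cases a 0 <;> cases a 1 <;> cases a 2 <;> decide
  · revert h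
    cases a 0 <;> cases a 1 <;> decide
  · revert h
    cases a 0 <;> decide
  · revert h
    cases a 0 <;> cases a 1 <;> cases a 2 <;> cases a 3 <;> cases a 4 <;> cases a 5 <;>
      cases b <;> cases p <;> decide
  · revert h
    cases a 0 <;> cases a 1 <;> cases a 3 <;> cases a 4 <;> cases a 5 <;>
      cases p <;> decide
  · revert h
    cases a 0 <;> cases a 1 <;> cases a 2 <;> cases b <;> decide
  · revert h
    cases a 0 <;> cases a 1 <;> cases a 2 <;> cases a 3 <;> cases a 4 <;>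
      cases b <;> cases p <;> decide
  · revert h
    cases a 0 <;> cases a 1 <;> cases p <;> decide

/-- the substitution given by a list -/
def sl (l : List PForm) (i : ℕ) : PForm := l.getD i (.var 0)

theorem size_sl {l : List PForm} {M : ℕ} (hM : 1 ≤ M) (h : ∀ A ∈ l, A.size ≤ M) (i : ℕ) :
    (sl l i).size ≤ M := by
  unfold sl
  rcases Nat.lt_or_ge i l.length with hi | hi
  · rw [List.getD_eq_getElem _ _ hi]
    exact h _ (List.getElem_mem hi)
  · rw [List.getD_eq_default _ _ hi]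
    simpa [PForm.size] using hM

/-- all the inferences have derivations with at most `κ` lines -/
structure Sys (Φ : Set Rule) (κ : ℕ) : Prop where
  all : ∀ s ∈ schemes, Inf Φ κ s.1 s.2

theorem sys_exists {Φ : Set Rule} (hΦ : Frege Φ) : ∃ κ, Sys Φ κ := by
  obtain ⟨κ, h⟩ := inf_list hΦ schemes schemes_sound
  exact ⟨κ, ⟨h⟩⟩

variable {Φ : Set Rule} {κ : ℕ}

theorem Sys.use (hS : Sys Φ κ) {Γ : List PForm} {A : PForm} (hmem : (Γ, A) ∈ schemes)
    (l : List PForm) {M : ℕ} (hM : 1 ≤ M) (hl : ∀ B ∈ l, B.size ≤ M) {Γ' : Set PForm} {A' : PForm}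
    (h1 : ∀ B ∈ Γ, B.subst (sl l) ∈ Γ') (h2 : A.subst (sl l) = A') :
    Ded Φ (κ * M) κ Γ' {A'} := by
  subst h2
  refine (hS.all _ hmem (sl l) M (size_sl hM hl)).mono le_rfl le_rfl ?_ (fun _ h => h)
  rintro B ⟨p, hp, rfl⟩
  exact h1 p hp

variable {Γ : Set PForm} {M : ℕ}

theorem Sys.base (hS : Sys Φ κ) (hM : 1 ≤ M) {A B x : PForm} (hA : A.size ≤ M) (hB : B.size ≤ M)
    (hx : x.size ≤ M) (h1 : eqv A ff ∈ Γ) (h2 : eqv B ff ∈ Γ) :
    Ded Φ (κ * M) κ Γ {st false A B x} := by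
  refine hS.use (Γ := [eqv (v 0) fs, eqv (v 1) fs]) (A := st false (v 0) (v 1) (v 2))
    (by simp [schemes]) [A, B, x] hM (by simp [hA, hB, hx]) ?_ rfl
  simp only [List.mem_cons, List.not_mem_nil, or_false, forall_eq_or_imp, forall_eq]
  exact ⟨h1, h2⟩

theorem Sys.neg0 (hS : Sys Φ κ) (hM : 1 ≤ M) {A : PForm} (hA : A.size ≤ M)
    (h1 : eqv A ff ∈ Γ) : Ded Φ (κ * M) κ Γ {.neg A} := by
  refine hS.use (Γ := [eqv (v 0) fs]) (A := .neg (v 0))
    (by simp [schemes]) [A] hM (by simp [hA]) ?_ rfl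
  simp only [List.mem_cons, List.not_mem_nil, or_false, forall_eq]
  exact h1

theorem Sys.negs (hS : Sys Φ κ) (hM : 1 ≤ M) {A B x : PForm} (hA : A.size ≤ M) (hB : B.size ≤ M)
    (hx : x.size ≤ M) (h1 : st false A B x ∈ Γ) (h2 : PForm.neg B ∈ Γ) :
    Ded Φ (κ * M) κ Γ {.neg A} := by
  refine hS.use (Γ := [st false (v 0) (v 1) (v 2), .neg (v 1)]) (A := .neg (v 0))
    (by simp [schemes]) [A, B, x] hM (by simp [hA, hB, hx]) ?_ rfl
  simp only [List.mem_cons, List.not_mem_nil, or_false, forall_eq_or_imp, forall_eq]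
  exact ⟨h1, h2⟩

theorem Sys.weak (hS : Sys Φ κ) (hM : 1 ≤ M) {A B : PForm} (hA : A.size ≤ M) (hB : B.size ≤ M)
    (h1 : A ∈ Γ) : Ded Φ (κ * M) κ Γ {.or A B} := by
  refine hS.use (Γ := [v 0]) (A := .or (v 0) (v 1))
    (by simp [schemes]) [A, B] hM (by simp [hA, hB]) ?_ rfl
  simp only [List.mem_cons, List.not_mem_nil, or_false, forall_eq]
  exact h1

theorem Sys.merge (hS : Sys Φ κ) (hM : 1 ≤ M) {y A B : PForm} (hy : y.size ≤ M)
    (hA : A.size ≤ M) (hB : B.size ≤ M) (h1 : PForm.or (.or (lt false y) A) B ∈ Γ)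
    (h2 : PForm.or (.or (lt true y) A) B ∈ Γ) : Ded Φ (κ * M) κ Γ {.or A B} := by
  refine hS.use (Γ := [.or (.or (lt false (v 0)) (v 1)) (v 2),
    .or (.or (lt true (v 0)) (v 1)) (v 2)]) (A := .or (v 1) (v 2))
    (by simp [schemes]) [y, A, B] hM (by simp [hy, hA, hB]) ?_ rfl
  simp only [List.mem_cons, List.not_mem_nil, or_false, forall_eq_or_imp, forall_eq]
  exact ⟨h1, h2⟩

theorem Sys.mlast (hS : Sys Φ κ) (hM : 1 ≤ M) {y A : PForm} (hy : y.size ≤ M)
    (hA : A.size ≤ M) (h1 : PForm.or (lt false y) A ∈ Γ)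
    (h2 : PForm.or (lt true y) A ∈ Γ) : Ded Φ (κ * M) κ Γ {A} := by
  refine hS.use (Γ := [.or (lt false (v 0)) (v 1), .or (lt true (v 0)) (v 1)]) (A := v 1)
    (by simp [schemes]) [y, A] hM (by simp [hy, hA]) ?_ rfl
  simp only [List.mem_cons, List.not_mem_nil, or_false, forall_eq_or_imp, forall_eq]
  exact ⟨h1, h2⟩

theorem Sys.contra (hS : Sys Φ κ) (hM : 1 ≤ M) {A : PForm} (hA : A.size ≤ M)
    (h1 : A ∈ Γ) (h2 : PForm.neg A ∈ Γ) : Ded Φ (κ * M) κ Γ {ff} := by
  refine hS.use (Γ := [v 0, .neg (v 0)]) (A := fs)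
    (by simp [schemes]) [A] hM (by simp [hA]) ?_ rfl
  simp only [List.mem_cons, List.not_mem_nil, or_false, forall_eq_or_imp, forall_eq]
  exact ⟨h1, h2⟩

theorem Sys.diff (hS : Sys Φ κ) (hM : 1 ≤ M) (b p : Bool) {A' A B' B y x : PForm}
    (hs : ∀ C ∈ [A', A, y, B', B, x], C.size ≤ M)
    (h1 : st b A' A y ∈ Γ) (h2 : st b B' B y ∈ Γ) (h3 : st p A B x ∈ Γ) :
    Ded Φ (κ * M) κ Γ {st p A' B' x} := by
  refine hS.use (Γ := [st b (v 0) (v 1) (v 2), st b (v 3) (v 4) (v 2), st p (v 1) (v 4) (v 5)])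
    (A := st p (v 0) (v 3) (v 5))
    (by cases b <;> cases p <;> simp [schemes]) [A', A, y, B', B, x] hM hs ?_
    (by cases p <;> rfl)
  simp only [List.mem_cons, List.not_mem_nil, or_false, forall_eq_or_imp, forall_eq]
  refine ⟨?_, ?_, ?_⟩
  · cases b <;> exact h1
  · cases b <;> exact h2
  · cases p <;> exact h3

theorem Sys.same (hS : Sys Φ κ) (hM : 1 ≤ M) (p : Bool) {A' A B' B x : PForm}
    (hs : ∀ C ∈ [A', A, x, B', B, x], C.size ≤ M)
    (h1 : st true A' A x ∈ Γ) (h2 : st false B' B x ∈ Γ) (h3 : st p A B x ∈ Γ) :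
    Ded Φ (κ * M) κ Γ {st (!p) A' B' x} := by
  refine hS.use (Γ := [st true (v 0) (v 1) (v 5), st false (v 3) (v 4) (v 5),
    st p (v 1) (v 4) (v 5)]) (A := st (!p) (v 0) (v 3) (v 5))
    (by cases p <;> simp [schemes]) [A', A, x, B', B, x] hM hs ?_
    (by cases p <;> rfl)
  simp only [List.mem_cons, List.not_mem_nil, or_false, forall_eq_or_imp, forall_eq]
  refine ⟨h1, h2, ?_⟩
  cases p <;> exact h3

theorem Sys.last (hS : Sys Φ κ) (hM : 1 ≤ M) (b : Bool) {A B y : PForm}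
    (hs : ∀ C ∈ [A, B, y], C.size ≤ M) (h1 : st true A B y ∈ Γ) :
    Ded Φ (κ * M) κ Γ {.or (lt b y) (eqp b A B)} := by
  refine hS.use (Γ := [st true (v 0) (v 1) (v 2)])
    (A := .or (lt b (v 2)) (eqp b (v 0) (v 1)))
    (by cases b <;> simp [schemes]) [A, B, y] hM hs ?_
    (by cases b <;> rfl)
  simp only [List.mem_cons, List.not_mem_nil, or_false, forall_eq]
  exact h1

theorem Sys.step (hS : Sys Φ κ) (hM : 1 ≤ M) (b p : Bool) {K A B' B y : PForm}
    (hs : ∀ C ∈ [K, A, B', B, y], C.size ≤ M) (h1 : PForm.or K (eqp p A B') ∈ Γ)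
    (h2 : st true B' B y ∈ Γ) :
    Ded Φ (κ * M) κ Γ {.or (.or (lt b y) K) (eqp (xor p b) A B)} := by
  refine hS.use (Γ := [.or (v 0) (eqp p (v 1) (v 2)), st true (v 2) (v 3) (v 4)])
    (A := .or (.or (lt b (v 4)) (v 0)) (eqp (xor p b) (v 1) (v 3)))
    (by cases b <;> cases p <;> simp [schemes]) [K, A, B', B, y] hM hs ?_
    (by cases b <;> cases p <;> rfl)
  simp only [List.mem_cons, List.not_mem_nil, or_false, forall_eq_or_imp, forall_eq]
  refine ⟨?_, h2⟩
  cases p <;> exact h1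

theorem Sys.chain (hS : Sys Φ κ) (hM : 1 ≤ M) (p : Bool) {A B : PForm}
    (hA : A.size ≤ M) (hB : B.size ≤ M) (h1 : eqp true A B ∈ Γ)
    (h2 : val p B ∈ Γ) : Ded Φ (κ * M) κ Γ {val (!p) A} := by
  refine hS.use (Γ := [eqp true (v 0) (v 1), val p (v 1)]) (A := val (!p) (v 0))
    (by cases p <;> simp [schemes]) [A, B] hM (by simp [hA, hB]) ?_
    (by cases p <;> rfl)
  simp only [List.mem_cons, List.not_mem_nil, or_false, forall_eq_or_imp, forall_eq]
  refine ⟨h1, ?_⟩
  cases p <;> exact h2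

end Pool.Agent.T9h90.EF
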