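import Pool.Agent.T9h90.EF.Final

/-!
# The separation
-/

set_option autoImplicit false
set_option linter.unusedSectionVars false

namespace Pool.Agent.T9h90.EF

open Finset Classical

open Pool.Agent.T9h49.RK Pool.Agent.T9h90.FT

theorem sys_one {Φ : Set Rule} (hΦ : Frege Φ) : ∃ κ, 1 ≤ κ ∧ Sys Φ κ := by
  obtain ⟨κ, hκ⟩ := sys_exists hΦ
  exact ⟨κ + 1, by omega, ⟨fun s hs => (hκ.1 s hs).mono (by omega)⟩⟩

/-- the constant of a Frege system -/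
noncomputable def const (Φ : Set Rule) : ℕ := if h : Frege Φ then 19 * (sys_one h).choose else 0

/-- **Separation with constants.** -/
theorem sep1 : ∃ (c : ℕ → ℝ) (C : Set Rule → ℕ), (∀ r, 0 < c r) ∧
    ∀ (R K : ℕ) (γ : ℝ), 0 < γ → ∃ ε : ℝ, 0 < ε ∧ ∃ w : ℕ, ∀ m : ℕ, ∃ n : ℕ, m ≤ n ∧
    ∃ F : List PForm, (∀ A ∈ F, A.IsClause ∧ A.size ≤ w ∧ A.vars ⊆ range n) ∧ Unsat F ∧
      ε * sizeL F ≤ n ∧
      (∀ Φ : Set Rule, Frege Φ → ∃ π : List PForm, ERefutes Φ F π ∧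
        π.length ≤ C Φ * n ^ 2 ∧ ∀ A ∈ π, A.size ≤ C Φ * w) ∧
      ∀ r ≤ R, ∀ Φ : Set Rule, (∀ ρ ∈ Φ, ρ.Sound ∧ ρ.prem.length ≤ r) → ∀ π : List PForm,
        Refutes Φ F π → (∀ A ∈ π, Adm (c r) K γ n A) → (2 : ℝ) ^ (ε * n) ≤ π.length := by
  obtain ⟨c, hc, hmain⟩ := both
  refine ⟨c, const, hc, fun R K γ hγ => ?_⟩
  obtain ⟨ε, hε, W, h⟩ := hmain R K γ hγ
  refine ⟨ε, hε, 3 * W + 30, fun m => ?_⟩
  obtain ⟨V, hV⟩ : ∃ V : ℕ, V = 2 ^ (W + 2) := ⟨_, rfl⟩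
  have hV1 : 1 ≤ V := by rw [hV]; exact Nat.one_le_two_pow
  obtain ⟨n, hn, F, hF1, hF2, hF3, hF4, hF5⟩ := h (m + V + ⌈1 / ε⌉₊)
  rw [← hV] at hF4
  refine ⟨n, by omega, F, fun A hA => ⟨(hF1 A hA).1, ?_, (hF1 A hA).2.2⟩, hF2, hF3, ?_, hF5⟩
  · have := (hF1 A hA).2.1
    omega
  · intro Φ hΦ
    obtain ⟨h1, h2⟩ := (sys_one hΦ).choose_spec
    have h3 : const Φ = 19 * (sys_one hΦ).choose := by
      rw [const, dif_pos hΦ]
    rw [h3]
    generalize (sys_one hΦ).choose = κ at h1 h2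
    obtain ⟨π, hπ1, hπ2, hπ3⟩ := hF4 Φ κ h2 h1
    refine ⟨π, hπ1, hπ3.trans ?_, fun A hA => (hπ2 A hA).trans ?_⟩
    · have e1 : sizeL F ≤ n * n := by
        have h4 : (sizeL F : ℝ) ≤ n * n := by
          have h5 : 1 / ε ≤ n := by
            refine (Nat.le_ceil _).trans ?_
            exact_mod_cast (by omega : ⌈1 / ε⌉₊ ≤ n)
          calc (sizeL F : ℝ) = 1 / ε * (ε * sizeL F) := by field_simp
            _ ≤ n * n := mul_le_mul h5 hF3 (by positivity) (Nat.cast_nonneg _)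
        exact_mod_cast h4
      have e2 : V ≤ n := by omega
      have e3 : n * V ≤ n * n := Nat.mul_le_mul_left n e2
      have e4 : 1 ≤ n := hV1.trans e2
      have e5 : n ≤ n * n := Nat.le_mul_of_pos_left n e4
      have e6 : 2 * ((2 * n + 1) * (n + 1)) + (n + 1) + n * V + n + 2 ≤
          18 * (n * n) := by
        have : 2 * ((2 * n + 1) * (n + 1)) = 4 * (n * n) + 6 * n + 2 := by ring
        omega
      calc sizeL F + κ * (2 * ((2 * n + 1) * (n + 1)) + (n + 1) + n * V + n + 2)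
          ≤ κ * (n * n) + κ * (18 * (n * n)) :=
            Nat.add_le_add (e1.trans (Nat.le_mul_of_pos_left _ h1)) (Nat.mul_le_mul_left κ e6)
        _ = 19 * κ * n ^ 2 := by ring
    · exact Nat.mul_le_mul_right _ (by omega)

/-- **Separation by one sequence.** -/
theorem sep2 (c : ℕ → ℝ) (C : Set Rule → ℕ) (hmain : ∀ (R K : ℕ) (γ : ℝ), 0 < γ → ∃ ε : ℝ,
    0 < ε ∧ ∃ w : ℕ, ∀ m : ℕ, ∃ n : ℕ, m ≤ n ∧
    ∃ F : List PForm, (∀ A ∈ F, A.IsClause ∧ A.size ≤ w ∧ A.vars ⊆ range n) ∧ Unsat F ∧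
      ε * sizeL F ≤ n ∧
      (∀ Φ : Set Rule, Frege Φ → ∃ π : List PForm, ERefutes Φ F π ∧
        π.length ≤ C Φ * n ^ 2 ∧ ∀ A ∈ π, A.size ≤ C Φ * w) ∧
      ∀ r ≤ R, ∀ Φ : Set Rule, (∀ ρ ∈ Φ, ρ.Sound ∧ ρ.prem.length ≤ r) → ∀ π : List PForm,
        Refutes Φ F π → (∀ A ∈ π, Adm (c r) K γ n A) → (2 : ℝ) ^ (ε * n) ≤ π.length)
    (g : ℕ → ℕ) (hg : Filter.Tendsto g Filter.atTop Filter.atTop) :
    ∃ (n : ℕ → ℕ) (F : ℕ → List PForm), (∀ i, i ≤ n i ∧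
      (∀ A ∈ F i, A.IsClause ∧ A.size ≤ g (n i) ∧ A.vars ⊆ range (n i)) ∧ Unsat (F i) ∧
      sizeL (F i) ≤ n i * g (n i)) ∧
      (∀ Φ : Set Rule, Frege Φ → ∀ i, ∃ π : List PForm, ERefutes Φ (F i) π ∧
        π.length ≤ C Φ * n i ^ 2 ∧ ∀ A ∈ π, A.size ≤ C Φ * g (n i)) ∧
      ∀ (Φ : Set Rule) (r : ℕ), (∀ ρ ∈ Φ, ρ.Sound ∧ ρ.prem.length ≤ r) →
        ∀ (K : ℕ) (γ : ℝ), 0 < γ → ∃ i₀, ∀ i, i₀ ≤ i → ∀ π : List PForm,
          Refutes Φ (F i) π → (∀ A ∈ π, Adm (c r) K γ (n i) A) →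
            (2 : ℝ) ^ ((n i : ℝ) / g (n i)) ≤ π.length := by
  have h1 := fun i : ℕ => hmain i i (1 / ((i : ℝ) + 1)) (by positivity)
  choose ε hε w hF using h1
  have h2 : ∀ i, ∃ M : ℕ, ∀ n, M ≤ n → w i + ⌈1 / ε i⌉₊ ≤ g n := fun i =>
    Filter.eventually_atTop.mp (hg.eventually_ge_atTop (w i + ⌈1 / ε i⌉₊))
  choose M hM using h2
  choose n hn F hF1 hF2 hF3 hF4 hF5 using fun i : ℕ => hF i (max i (M i))
  have hgi : ∀ i, w i ≤ g (n i) ∧ 1 / ε i ≤ g (n i) := by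
    intro i
    have h3 := hM i (n i) ((le_max_right _ _).trans (hn i))
    refine ⟨by omega, (Nat.le_ceil _).trans ?_⟩
    exact_mod_cast (by omega : ⌈1 / ε i⌉₊ ≤ g (n i))
  refine ⟨n, F, fun i => ⟨(le_max_left _ _).trans (hn i), fun A hA => ⟨(hF1 i A hA).1,
    (hF1 i A hA).2.1.trans (hgi i).1, (hF1 i A hA).2.2⟩, hF2 i, ?_⟩, ?_, ?_⟩
  · have h4 : (sizeL (F i) : ℝ) ≤ n i * g (n i) := by
      have hεi := hε i
      calc (sizeL (F i) : ℝ) = ε i * sizeL (F i) * (1 / ε i) := by field_simp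
        _ ≤ n i * g (n i) := mul_le_mul (hF3 i) (hgi i).2 (by positivity) (Nat.cast_nonneg _)
    exact_mod_cast h4
  · intro Φ hΦ i
    obtain ⟨π, h3, h4, h5⟩ := hF4 i Φ hΦ
    exact ⟨π, h3, h4, fun A hA => (h5 A hA).trans (Nat.mul_le_mul_left _ (hgi i).1)⟩
  · intro Φ r hΦ K γ hγ
    obtain ⟨x, hx⟩ := exists_nat_ge (1 / γ)
    refine ⟨max (max r x) K, fun i hi π hπ hlines => ?_⟩
    have h2 : r ≤ i := ((le_max_left _ _).trans (le_max_left _ _)).trans hi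
    have h3 : x ≤ i := ((le_max_right _ _).trans (le_max_left _ _)).trans hi
    have h4 : K ≤ i := (le_max_right _ _).trans hi
    have h6 := hF5 i r h2 Φ hΦ π hπ (fun A hA => by
      rcases hlines A hA with h | ⟨H, hH1, hH2⟩
      · left
        refine h.trans (Real.rpow_le_rpow_of_exponent_le (by norm_num) ?_)
        have h7 : 1 / ((i : ℝ) + 1) ≤ γ := by
          rw [div_le_iff₀ hγ] at hx
          rw [div_le_iff₀ (by positivity)]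
          have h8 : (x : ℝ) ≤ i := by exact_mod_cast h3
          nlinarith
        have h8 : 1 / ((i : ℝ) + 1) * (n i : ℝ) ≤ γ * n i :=
          mul_le_mul_of_nonneg_right h7 (Nat.cast_nonneg _)
        linarith
      · right
        exact ⟨H, hH1, hH2.trans (Nat.mul_le_mul_right _ h4)⟩)
    refine le_trans (Real.rpow_le_rpow_of_exponent_le (by norm_num) ?_) h6
    have hεi := hε i
    have h7 := (hgi i).2
    have h8 : (0 : ℝ) < g (n i) := lt_of_lt_of_le (by positivity) h7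
    rw [div_le_iff₀ h8]
    have h9 : 1 ≤ ε i * g (n i) := by
      rw [div_le_iff₀ hεi] at h7
      linarith
    calc (n i : ℝ) = n i * 1 := (mul_one _).symm
      _ ≤ n i * (ε i * g (n i)) := mul_le_mul_of_nonneg_left h9 (Nat.cast_nonneg _)
      _ = _ := by ring

end Pool.Agent.T9h90.EF
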