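import Pool.Agent.T9h90.EF.Vertex

/-!
# The table of partial sums
-/

set_option autoImplicit false

namespace Pool.Agent.T9h90.EF

open Pool.Agent.T9h49.RK

section

variable (n n' : ℕ) (s : List ℕ)

/-- the extension variable for the sum of the first `j` terms which are less than `k` -/
def Qv (j k : ℕ) : PForm := .var (n' + j * (n + 1) + k)

/-- its definition -/
def dfn : ℕ → ℕ → PForm
  | 0, k => eqv (Qv n n' 0 k) ff
  | j + 1, k => st (decide (s.getD j 0 < k)) (Qv n n' (j + 1) k) (Qv n n' j k)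
      (.var (s.getD j 0))

/-- parity of the number of occurrences of `k` in the first `j` terms -/
def pc (j k : ℕ) : Bool := decide ((s.take j).count k % 2 = 1)

end

theorem pc_zero (s : List ℕ) (k : ℕ) : pc s 0 k = false := by simp [pc]

theorem pc_succ (s : List ℕ) (j k : ℕ) (hj : j < s.length) :
    pc s (j + 1) k = if s.getD j 0 = k then !pc s j k else pc s j k := by
  unfold pc
  rw [List.take_succ_eq_append_getElem hj, List.count_append, List.getD_eq_getElem _ _ hj]
  by_cases h : s[j] = k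
  · subst h
    rw [if_pos rfl]
    simp only [List.count_singleton_self]
    rcases Nat.mod_two_eq_zero_or_one (List.count s[j] (List.take j s)) with h1 | h1
    · have : (List.count s[j] (List.take j s) + 1) % 2 = 1 := by omega
      simp [h1, this]
    · have : (List.count s[j] (List.take j s) + 1) % 2 = 0 := by omega
      simp [h1, this]
  · rw [if_neg h]
    have : List.count k [s[j]] = 0 := by
      rw [List.count_eq_zero]
      simp [Ne.symm h]
    rw [this, add_zero]

variable {Φ : Set Rule} {κ M n n' : ℕ} {s : List ℕ}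

theorem size_Qv (j k : ℕ) : (Qv n n' j k).size = 1 := rfl

theorem table (hS : Sys Φ κ) (hM : 1 ≤ M) (Γ : Set PForm)
    (hΓ : ∀ j ≤ s.length, ∀ k ≤ n, dfn n n' s j k ∈ Γ) :
    Ded Φ (κ * M) ((s.length + 1) * (n * κ)) Γ {A | ∃ j ≤ s.length, A ∈ {A | ∃ k < n,
      A = st (pc s j k) (Qv n n' j (k + 1)) (Qv n n' j k) (.var k)}} := by
  refine Ded.iter (fun j => {A | ∃ k < n,
      A = st (pc s j k) (Qv n n' j (k + 1)) (Qv n n' j k) (.var k)}) s.length ?_ ?_
  · refine (Ded.list (List.range n) (fun k =>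
      {st (pc s 0 k) (Qv n n' 0 (k + 1)) (Qv n n' 0 k) (.var k)}) ?_).mono le_rfl
      (by rw [List.length_range]) (fun _ h => h) ?_
    · intro k hk
      rw [List.mem_range] at hk
      rw [pc_zero]
      exact hS.base hM (by simp [size_Qv, hM]) (by simp [size_Qv, hM]) (by simpa [PForm.size] using hM)
        (hΓ 0 (Nat.zero_le _) (k + 1) (by omega)) (hΓ 0 (Nat.zero_le _) k (by omega))
    · rintro A ⟨k, hk, rfl⟩
      exact ⟨k, List.mem_range.mpr hk, rfl⟩
  · intro j hj
    refine (Ded.list (List.range n) (fun k =>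
      {st (pc s (j + 1) k) (Qv n n' (j + 1) (k + 1)) (Qv n n' (j + 1) k) (.var k)}) ?_).mono le_rfl
      (by rw [List.length_range]) (fun _ h => h) ?_
    · intro k hk
      rw [List.mem_range] at hk
      have h1 := hΓ (j + 1) (by omega) (k + 1) (by omega)
      have h2 := hΓ (j + 1) (by omega) k (by omega)
      rw [pc_succ s j k hj]
      simp only [dfn] at h1 h2
      by_cases h3 : s.getD j 0 = k
      · rw [if_pos h3]
        have e1 : decide (s.getD j 0 < k + 1) = true := decide_eq_true (by omega)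
        have e2 : decide (s.getD j 0 < k) = false := decide_eq_false (by omega)
        rw [e1, h3] at h1
        rw [e2, h3] at h2
        refine hS.same hM (pc s j k) (A := Qv n n' j (k + 1)) (B := Qv n n' j k) ?_
          (Or.inl h1) (Or.inl h2) (Or.inr ⟨k, hk, rfl⟩)
        simp [size_Qv, PForm.size, hM]
      · rw [if_neg h3]
        have e1 : decide (s.getD j 0 < k + 1) = decide (s.getD j 0 < k) := by
          congr 1
          refine propext ?_
          omega
        rw [e1] at h1
        refine hS.diff hM (decide (s.getD j 0 < k)) (pc s j k) (A := Qv n n' j (k + 1))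
          (B := Qv n n' j k) (y := .var (s.getD j 0)) ?_
          (Or.inl h1) (Or.inl h2) (Or.inr ⟨k, hk, rfl⟩)
        simp [size_Qv, PForm.size, hM]
    · rintro A ⟨k, hk, rfl⟩
      exact ⟨k, List.mem_range.mpr hk, rfl⟩

theorem zeros (hS : Sys Φ κ) (hM : 1 ≤ M) (Γ : Set PForm)
    (hΓ : ∀ j ≤ s.length, ∀ k ≤ n, dfn n n' s j k ∈ Γ) :
    Ded Φ (κ * M) ((s.length + 1) * κ) Γ
      {A | ∃ j ≤ s.length, A ∈ ({.neg (Qv n n' j 0)} : Set PForm)} := by
  refine Ded.iter (fun j => {.neg (Qv n n' j 0)}) s.length ?_ ?_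
  · exact hS.neg0 hM (by simp [size_Qv, hM]) (hΓ 0 (Nat.zero_le _) 0 (Nat.zero_le _))
  · intro j hj
    have h1 := hΓ (j + 1) (by omega) 0 (Nat.zero_le _)
    simp only [dfn] at h1
    have e1 : decide (s.getD j 0 < 0) = false := by simp
    rw [e1] at h1
    exact hS.negs hM (by simp [size_Qv, hM]) (by simp [size_Qv, hM])
      (by simpa [PForm.size] using hM) (Or.inl h1) (Or.inr rfl)

/-- the last row -/
theorem lastRow (hS : Sys Φ κ) (hM : 1 ≤ M) (Γ : Set PForm)
    (hΓ : ∀ k < n, st false (Qv n n' s.length (k + 1)) (Qv n n' s.length k) (.var k) ∈ Γ)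
    (h0 : PForm.neg (Qv n n' s.length 0) ∈ Γ) (h1 : 1 ≤ n) :
    Ded Φ (κ * M) ((n + 1) * κ) Γ
      {A | ∃ k ≤ n, k ≠ 0 ∧ A = .neg (Qv n n' s.length k)} := by
  obtain ⟨m, rfl⟩ : ∃ m, n = m + 1 := ⟨n - 1, by omega⟩
  refine (Ded.iter (n := κ) (fun k => {.neg (Qv (m + 1) n' s.length (k + 1))}) m ?_ ?_).mono le_rfl
    (Nat.mul_le_mul_right κ (by omega)) (fun _ h => h) ?_
  · exact hS.negs hM (by simp [size_Qv, hM]) (by simp [size_Qv, hM])
      (by simpa [PForm.size] using hM) (hΓ 0 (by omega)) h0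
  · intro k hk
    exact hS.negs hM (by simp [size_Qv, hM]) (by simp [size_Qv, hM])
      (by simpa [PForm.size] using hM) (Or.inl (hΓ (k + 1) (by omega))) (Or.inr rfl)
  · rintro A ⟨k, hk, hk0, rfl⟩
    exact ⟨k - 1, by omega, by
      rw [Nat.sub_add_cancel (Nat.one_le_iff_ne_zero.mpr hk0)]
      rfl⟩

end Pool.Agent.T9h90.EF
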