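import Pool.Agent.T9h90.EF.Table

/-!
# The extended Frege refutation
-/

set_option autoImplicit false

namespace Pool.Agent.T9h90.EF

open Pool.Agent.T9h49.RK

/-- the position of a block -/
def pos (bl : List (List ℕ)) (v : ℕ) : ℕ := ((bl.take v).flatten).length

theorem pos_zero (bl : List (List ℕ)) : pos bl 0 = 0 := by simp [pos]

theorem pos_succ (bl : List (List ℕ)) (v : ℕ) (hv : v < bl.length) :
    pos bl (v + 1) = pos bl v + bl[v].length := by
  unfold pos
  rw [List.take_succ_eq_append_getElem hv, List.flatten_append, List.length_append]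
  simp

theorem pos_length (bl : List (List ℕ)) : pos bl bl.length = bl.flatten.length := by
  unfold pos
  rw [List.take_length]

theorem pos_le (bl : List (List ℕ)) (v : ℕ) : pos bl v ≤ bl.flatten.length := by
  unfold pos
  conv_rhs => rw [← List.take_append_drop v bl, List.flatten_append, List.length_append]
  omega

theorem getD_flatten (bl : List (List ℕ)) (v : ℕ) (hv : v < bl.length) (i : ℕ)
    (hi : i < bl[v].length) : bl.flatten.getD (pos bl v + i) 0 = bl[v][i] := by
  have h : bl.flatten = (bl.take v).flatten ++ (bl[v] ++ (bl.drop (v + 1)).flatten) := by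
    conv_lhs => rw [← List.take_append_drop v bl, List.flatten_append,
      List.drop_eq_getElem_cons hv, List.flatten_cons]
  rw [h, List.getD_append_right _ _ _ _ (by unfold pos; omega)]
  have e : pos bl v + i - (List.take v bl).flatten.length = i := by unfold pos; omega
  rw [e, List.getD_append _ _ _ _ hi, List.getD_eq_getElem _ _ hi]

variable {Φ : Set Rule} {κ M n n' : ℕ} {bl : List (List ℕ)}

theorem vertices (hS : Sys Φ κ) (W : ℕ) (hne : ∀ u ∈ bl, u ≠ [])
    (hlt : ∀ u ∈ bl, ∀ y ∈ u, y < n) (hM : 3 * W + 11 ≤ M) (hW : ∀ u ∈ bl, u.length ≤ W)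
    (Γ : Set PForm) (hΓ : ∀ j ≤ bl.flatten.length, ∀ k ≤ n, dfn n n' bl.flatten j k ∈ Γ)
    (hK : ∀ u ∈ bl, ∀ τ : List Bool, τ.length = u.length → pb τ = false → Kc u τ ∈ Γ) :
    Ded Φ (κ * M) (bl.length * (2 ^ (W + 2) * κ)) Γ {A | ∃ v ∈ List.range bl.length,
      A ∈ ({eqp true (Qv n n' (pos bl (v + 1)) n) (Qv n n' (pos bl v) n)} : Set PForm)} := by
  refine (Ded.list (n := 2 ^ (W + 2) * κ) (List.range bl.length) (fun v =>
    {eqp true (Qv n n' (pos bl (v + 1)) n) (Qv n n' (pos bl v) n)}) ?_).mono le_rfl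
      (by rw [List.length_range]) (fun _ h => h) (fun _ h => h)
  intro v hv
  rw [List.mem_range] at hv
  have hmem : bl[v] ∈ bl := List.getElem_mem hv
  have hw := hW _ hmem
  have h1 := vertex hS bl[v] (hne _ hmem) (M := M) (by omega)
    (fun i => Qv n n' (pos bl v + i) n) (fun i => le_rfl) Γ (by
      intro i hi
      have h2 := pos_succ bl v hv
      have h3 := pos_le bl (v + 1)
      have h4 := hΓ (pos bl v + i + 1) (by omega) n le_rfl
      simp only [dfn] at h4
      rw [getD_flatten bl v hv i hi] at h4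
      have h5 : decide (bl[v][i] < n) = true :=
        decide_eq_true (hlt _ hmem _ (List.getElem_mem hi))
      rw [h5] at h4
      exact h4) (hK _ hmem)
  rw [← pos_succ bl v hv] at h1
  refine h1.mono le_rfl (Nat.mul_le_mul_right κ (Nat.pow_le_pow_right (by norm_num) (by omega)))
    (fun _ h => h) (fun _ h => h)

theorem chain (hS : Sys Φ κ) (hM : 1 ≤ M) (Γ : Set PForm)
    (h0 : dfn n n' bl.flatten 0 n ∈ Γ)
    (hΓ : ∀ v < bl.length, eqp true (Qv n n' (pos bl (v + 1)) n) (Qv n n' (pos bl v) n) ∈ Γ) :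
    Ded Φ (κ * M) ((bl.length + 1) * κ) Γ {A | ∃ v ≤ bl.length,
      A ∈ ({val (decide (v % 2 = 1)) (Qv n n' (pos bl v) n)} : Set PForm)} := by
  refine Ded.iter (fun v => {val (decide (v % 2 = 1)) (Qv n n' (pos bl v) n)}) bl.length ?_ ?_
  · rw [pos_zero]
    exact hS.neg0 hM (by simp [size_Qv, hM]) h0
  · intro v hv
    have h1 := hS.chain (Γ := Γ ∪ {val (decide (v % 2 = 1)) (Qv n n' (pos bl v) n)}) hM
      (decide (v % 2 = 1)) (A := Qv n n' (pos bl (v + 1)) n) (B := Qv n n' (pos bl v) n)
      (by simp [size_Qv, hM]) (by simp [size_Qv, hM]) (Or.inl (hΓ v hv)) (Or.inr rfl)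
    have h2 : (!decide (v % 2 = 1)) = decide ((v + 1) % 2 = 1) := by
      rcases Nat.mod_two_eq_zero_or_one v with h | h
      · have : (v + 1) % 2 = 1 := by omega
        simp [h, this]
      · have : (v + 1) % 2 = 0 := by omega
        simp [h, this]
    rw [h2] at h1
    exact h1

/-- the whole derivation from the definitions and the clauses -/
theorem whole (hS : Sys Φ κ) (W : ℕ) (hne : ∀ u ∈ bl, u ≠ [])
    (hlt : ∀ u ∈ bl, ∀ y ∈ u, y < n) (hM : 3 * W + 11 ≤ M) (hW : ∀ u ∈ bl, u.length ≤ W)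
    (hn : 1 ≤ n) (heven : ∀ k < n, bl.flatten.count k % 2 = 0) (hodd : bl.length % 2 = 1)
    (Γ : Set PForm) (hΓ : ∀ j ≤ bl.flatten.length, ∀ k ≤ n, dfn n n' bl.flatten j k ∈ Γ)
    (hK : ∀ u ∈ bl, ∀ τ : List Bool, τ.length = u.length → pb τ = false → Kc u τ ∈ Γ) :
    Ded Φ (κ * M) (κ * ((bl.flatten.length + 1) * (n + 1) + (n + 1) +
      bl.length * 2 ^ (W + 2) + bl.length + 2)) Γ {ff} := by
  have hM1 : 1 ≤ M := by omega
  have t1 := table hS hM1 Γ hΓ
  have t2 := zeros hS hM1 Γ hΓ
  have t3 := lastRow hS (s := bl.flatten) (n := n) (n' := n') hM1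
    ({A | ∃ j ≤ bl.flatten.length, A ∈ {A | ∃ k < n,
      A = st (pc bl.flatten j k) (Qv n n' j (k + 1)) (Qv n n' j k) (.var k)}} ∪
      {A | ∃ j ≤ bl.flatten.length, A ∈ ({.neg (Qv n n' j 0)} : Set PForm)})
    (by
      intro k hk
      refine Or.inl ⟨bl.flatten.length, le_rfl, k, hk, ?_⟩
      have : pc bl.flatten bl.flatten.length k = false := by
        unfold pc
        rw [List.take_length, heven k hk]
        rfl
      rw [this]) (Or.inr ⟨bl.flatten.length, le_rfl, rfl⟩) hn
  have t4 := vertices hS W hne hlt hM hW Γ hΓ hK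
  have t5 := chain (n := n) (n' := n') (bl := bl) hS hM1
    (Γ ∪ {A | ∃ v ∈ List.range bl.length,
      A ∈ ({eqp true (Qv n n' (pos bl (v + 1)) n) (Qv n n' (pos bl v) n)} : Set PForm)})
    (Or.inl (hΓ 0 (Nat.zero_le _) n le_rfl)) (by
      intro v hv
      exact Or.inr ⟨v, List.mem_range.mpr hv, rfl⟩)
  have t6 := hS.contra (Γ := {A | ∃ k ≤ n, k ≠ 0 ∧ A = .neg (Qv n n' bl.flatten.length k)} ∪
    ({A | ∃ v ∈ List.range bl.length,
      A ∈ ({eqp true (Qv n n' (pos bl (v + 1)) n) (Qv n n' (pos bl v) n)} : Set PForm)} ∪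
      {A | ∃ v ≤ bl.length,
      A ∈ ({val (decide (v % 2 = 1)) (Qv n n' (pos bl v) n)} : Set PForm)})) hM1
    (A := Qv n n' bl.flatten.length n) (by simp [size_Qv, hM1]) (by
      refine Or.inr (Or.inr ⟨bl.length, le_rfl, ?_⟩)
      rw [pos_length]
      have : decide (bl.length % 2 = 1) = true := decide_eq_true hodd
      rw [this]
      rfl) (Or.inl ⟨n, le_rfl, by omega, rfl⟩)
  have t12 := (t1.union t2).cut t3
  have t45 := t4.trans t5
  refine ((t12.union t45).cut t6).mono le_rfl ?_ (fun _ h => h) (fun _ h => h)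
  refine le_of_eq ?_
  ring

/-- the list of the definitions -/
def DL (n n' : ℕ) (s : List ℕ) (F : List PForm) : ℕ → List PForm
  | 0 => F
  | t + 1 => dfn n n' s (t / (n + 1)) (t % (n + 1)) :: DL n n' s F t

theorem DL_length (n n' : ℕ) (s : List ℕ) (F : List PForm) (t : ℕ) :
    (DL n n' s F t).length = t + F.length := by
  induction t with
  | zero => simp [DL]
  | succ t ih => simp [DL, ih]; omega

theorem vars_eqv (A B : PForm) : (eqv A B).vars = A.vars ∪ B.vars := by
  simp only [eqv, PForm.vars, Finset.union_idempotent]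

theorem vars_dfn (n n' : ℕ) (s : List ℕ) (hn : 1 ≤ n) (hn' : n ≤ n') (hs : ∀ y ∈ s, y < n)
    (j k : ℕ) (hk : k ≤ n) :
    ∃ A : PForm, dfn n n' s j k = eqv (.var (n' + j * (n + 1) + k)) A ∧
      ∀ i ∈ A.vars, i < n' + j * (n + 1) := by
  have hget : ∀ j, s.getD j 0 < n := by
    intro j
    rcases Nat.lt_or_ge j s.length with h | h
    · rw [List.getD_eq_getElem _ _ h]
      exact hs _ (List.getElem_mem h)
    · rw [List.getD_eq_default _ _ h]
      omega
  cases j with
  | zero =>
    refine ⟨ff, rfl, ?_⟩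
    intro i hi
    simp only [ff, PForm.vars, Finset.union_idempotent, Finset.mem_singleton] at hi
    subst hi
    omega
  | succ j =>
    have hj : n' + (j + 1) * (n + 1) = n' + j * (n + 1) + (n + 1) := by ring
    have h1 := hget j
    by_cases h : s.getD j 0 < k
    · refine ⟨xr (Qv n n' j k) (.var (s.getD j 0)), ?_, ?_⟩
      · simp only [dfn, decide_eq_true h, st, cond_true]
        rfl
      · intro i hi
        simp only [xr, Qv, PForm.vars, Finset.union_idempotent, Finset.mem_union,
          Finset.mem_singleton] at hi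
        rw [hj]
        rcases hi with rfl | rfl
        · omega
        · have := Nat.zero_le (j * (n + 1))
          omega
    · refine ⟨Qv n n' j k, ?_, ?_⟩
      · simp only [dfn, decide_eq_false h, st, cond_false]
        rfl
      · intro i hi
        simp only [Qv, PForm.vars, Finset.mem_singleton] at hi
        rw [hj]
        omega

theorem vars_DL (n n' : ℕ) (s : List ℕ) (F : List PForm) (hn : 1 ≤ n) (hn' : n ≤ n')
    (hs : ∀ y ∈ s, y < n) (hF : ∀ A ∈ F, ∀ i ∈ A.vars, i < n) (t : ℕ) :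
    ∀ B ∈ DL n n' s F t, ∀ i ∈ B.vars, i < n' + t := by
  induction t with
  | zero =>
    intro B hB i hi
    have := hF B hB i hi
    omega
  | succ t ih =>
    intro B hB i hi
    rcases List.mem_cons.mp hB with rfl | hB
    · obtain ⟨A, hA, hv⟩ := vars_dfn n n' s hn hn' hs (t / (n + 1)) (t % (n + 1))
        (Nat.lt_succ_iff.mp (Nat.mod_lt _ (by omega)))
      rw [hA, vars_eqv] at hi
      have h1 : t / (n + 1) * (n + 1) + t % (n + 1) = t := Nat.div_add_mod' t (n + 1)
      rcases Finset.mem_union.mp hi with h | h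
      · simp only [PForm.vars, Finset.mem_singleton] at h
        omega
      · have := hv i h
        omega
    · have := ih B hB i hi
      omega

theorem edefs (Φ : Set Rule) (n n' : ℕ) (s : List ℕ) (F : List PForm) (hn : 1 ≤ n) (hn' : n ≤ n')
    (hs : ∀ y ∈ s, y < n) (hF : ∀ A ∈ F, ∀ i ∈ A.vars, i < n) (t : ℕ) :
    EDerives Φ F (DL n n' s F t) := by
  induction t with
  | zero =>
    have h : ∀ l : List PForm, (∀ A ∈ l, A ∈ F) → EDerives Φ F l := by
      intro l
      induction l with
      | nil => intro _; exact .nil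
      | cons A l ih =>
        intro h
        exact .hyp A (ih fun B hB => h B (List.mem_cons_of_mem _ hB)) (h A List.mem_cons_self)
    exact h F fun _ h => h
  | succ t ih =>
    obtain ⟨A, hA, hv⟩ := vars_dfn n n' s hn hn' hs (t / (n + 1)) (t % (n + 1))
      (Nat.lt_succ_iff.mp (Nat.mod_lt _ (by omega)))
    have h1 : n' + t / (n + 1) * (n + 1) + t % (n + 1) = n' + t := by
      rw [add_assoc, Nat.div_add_mod' t (n + 1)]
    simp only [DL]
    rw [hA]
    refine .ext _ A ih ?_ ?_ ?_
    · intro h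
      have := hv _ h
      omega
    · intro B hB h
      have := hF B hB _ h
      omega
    · intro B hB h
      have := vars_DL n n' s F hn hn' hs hF t B hB _ h
      omega

theorem mem_DL (n n' : ℕ) (s : List ℕ) (F : List PForm) (t : ℕ) :
    (∀ A ∈ F, A ∈ DL n n' s F t) ∧
      ∀ i < t, dfn n n' s (i / (n + 1)) (i % (n + 1)) ∈ DL n n' s F t := by
  induction t with
  | zero => exact ⟨fun _ h => h, fun i hi => absurd hi (Nat.not_lt_zero i)⟩
  | succ t ih =>
    refine ⟨fun A hA => List.mem_cons_of_mem _ (ih.1 A hA), fun i hi => ?_⟩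
    rcases Nat.lt_or_ge i t with h | h
    · exact List.mem_cons_of_mem _ (ih.2 i h)
    · obtain rfl : i = t := by omega
      exact List.mem_cons_self

theorem size_dfn (n n' : ℕ) (s : List ℕ) (j k : ℕ) : (dfn n n' s j k).size ≤ 30 := by
  cases j with
  | zero => simp [dfn, eqv, ff, Qv, PForm.size]
  | succ j =>
    simp only [dfn]
    cases decide (s.getD j 0 < k) <;> simp [st, xr, eqv, Qv, PForm.size]

/-- **Upper bound.** -/
theorem upper (hS : Sys Φ κ) (hκ : 1 ≤ κ) (W : ℕ) (F : List PForm) (hne : ∀ u ∈ bl, u ≠ [])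
    (hlt : ∀ u ∈ bl, ∀ y ∈ u, y < n) (hW : ∀ u ∈ bl, u.length ≤ W)
    (hn : 1 ≤ n) (heven : ∀ k < n, bl.flatten.count k % 2 = 0) (hodd : bl.length % 2 = 1)
    (hF : ∀ A ∈ F, ∀ i ∈ A.vars, i < n) (hFs : ∀ A ∈ F, A.size ≤ 3 * W)
    (hK : ∀ u ∈ bl, ∀ τ : List Bool, τ.length = u.length → pb τ = false → Kc u τ ∈ F) :
    ∃ π, ERefutes Φ F π ∧ (∀ A ∈ π, A.size ≤ κ * (3 * W + 30)) ∧
      π.length ≤ F.length + κ * (2 * ((bl.flatten.length + 1) * (n + 1)) + (n + 1) +
        bl.length * 2 ^ (W + 2) + bl.length + 2) := by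
  set s := bl.flatten with hs
  have hs' : ∀ y ∈ s, y < n := by
    intro y hy
    obtain ⟨u, hu, hyu⟩ := List.mem_flatten.mp hy
    exact hlt u hu y hyu
  set t := (s.length + 1) * (n + 1) with ht
  have h1 := edefs Φ n n s F hn le_rfl hs' hF t
  have h2 := mem_DL n n s F t
  obtain ⟨π', g1, g2, g3, g4⟩ := whole (n' := n) hS (M := 3 * W + 30) W hne hlt (by omega) hW hn
    heven hodd {A | A ∈ DL n n s F t} (by
      intro j hj k hk
      have h3 : (j * (n + 1) + k) / (n + 1) = j := by
        rw [Nat.mul_comm, Nat.mul_add_div (by omega), Nat.div_eq_of_lt (by omega), add_zero]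
      have h4 : (j * (n + 1) + k) % (n + 1) = k := by
        rw [Nat.mul_comm, Nat.mul_add_mod, Nat.mod_eq_of_lt (by omega)]
      have h5 : j * (n + 1) + k < t := by
        have : j * (n + 1) ≤ s.length * (n + 1) := Nat.mul_le_mul_right _ hj
        have h6 : t = s.length * (n + 1) + (n + 1) := by rw [ht]; ring
        omega
      have h6 := h2.2 _ h5
      rwa [h3, h4] at h6) (fun u hu τ h3 h4 => h2.1 _ (hK u hu τ h3 h4))
  obtain ⟨π, e1, e2, e3, e4, e5⟩ := h1.join g1
  refine ⟨π, ⟨e1, e3 _ (g4 _ rfl)⟩, ?_, ?_⟩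
  · intro A hA
    rcases e4 A hA with h | h
    · have h3 : A.size ≤ 3 * W + 30 := by
        have h4 : ∀ t, ∀ B ∈ DL n n s F t, B.size ≤ 3 * W + 30 := by
          intro t
          induction t with
          | zero =>
            intro B hB
            have := hFs B hB
            omega
          | succ t ih =>
            intro B hB
            rcases List.mem_cons.mp hB with rfl | hB
            · have := size_dfn n n s (t / (n + 1)) (t % (n + 1))
              omega
            · exact ih B hB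
        exact h4 t A h
      exact h3.trans (Nat.le_mul_of_pos_left _ hκ)
    · exact g2 A h
  · rw [DL_length] at e5
    have h3 : t ≤ κ * t := Nat.le_mul_of_pos_left _ hκ
    have g3' : π'.length ≤ κ * (t + (n + 1) + bl.length * 2 ^ (W + 2) + bl.length + 2) := g3
    have h7 : κ * (2 * t + (n + 1) + bl.length * 2 ^ (W + 2) + bl.length + 2) =
        κ * t + κ * (t + (n + 1) + bl.length * 2 ^ (W + 2) + bl.length + 2) := by ring
    rw [h7]
    have e5' : π.length ≤ t + F.length + π'.length := e5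
    omega

end Pool.Agent.T9h90.EF
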