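import Pool.Agent.T9h90.EF.Rules
import Pool.Agent.T9h49.RK.Tseitin

/-!
# The derivation at a vertex
-/

set_option autoImplicit false

namespace Pool.Agent.T9h90.EF

open Pool.Agent.T9h49.RK

/-- the clause which excludes the values `τ` of the variables in the list `u` -/
def Kc (u : List ℕ) (τ : List Bool) : PForm :=
  PForm.bigOr ((u.zip τ).map (fun p => lt p.2 (.var p.1)))

/-- the parity -/
def pb (τ : List Bool) : Bool := τ.foldr xor false

theorem pb_nil : pb [] = false := rfl

theorem pb_cons (b : Bool) (τ : List Bool) : pb (b :: τ) = xor b (pb τ) := rfl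

theorem Kc_single (y : ℕ) (b : Bool) : Kc [y] [b] = lt b (.var y) := rfl

theorem Kc_cons (y z : ℕ) (u : List ℕ) (b c : Bool) (τ : List Bool) :
    Kc (y :: z :: u) (b :: c :: τ) = .or (lt b (.var y)) (Kc (z :: u) (c :: τ)) := rfl

theorem size_lt (b : Bool) (y : ℕ) : (lt b (.var y)).size ≤ 2 := by
  cases b <;> simp [lt, PForm.size]

theorem size_Kc : ∀ (u : List ℕ) (τ : List Bool), u ≠ [] → τ.length = u.length →
    (Kc u τ).size ≤ 3 * u.length
  | [], _, h, _ => absurd rfl h
  | [y], [b], _, _ => by
      rw [Kc_single]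
      have := size_lt b y
      simp only [List.length_cons, List.length_nil]
      omega
  | y :: z :: u, b :: c :: τ, _, h => by
      have h1 := size_Kc (z :: u) (c :: τ) (by simp) (by simpa using h)
      rw [Kc_cons]
      have h2 := size_lt b y
      simp only [PForm.size, List.length_cons] at h1 ⊢
      omega
  | [y], [], _, h => by simp at h
  | [y], _ :: _ :: _, _, h => by simp at h
  | y :: z :: u, [], _, h => by simp at h
  | y :: z :: u, [b], _, h => by simp at h

/-- all lists of Booleans of given length -/
def allB : ℕ → List (List Bool)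
  | 0 => [[]]
  | w + 1 => (allB w).map (fun τ => false :: τ) ++ (allB w).map (fun τ => true :: τ)

theorem length_allB (w : ℕ) : (allB w).length = 2 ^ w := by
  induction w with
  | zero => rfl
  | succ w ih => simp [allB, ih, pow_succ]; ring

theorem mem_allB (w : ℕ) (τ : List Bool) : τ ∈ allB w ↔ τ.length = w := by
  induction w generalizing τ with
  | zero => simp [allB]
  | succ w ih =>
    simp only [allB, List.mem_append, List.mem_map, ih]
    constructor
    · rintro (⟨σ, h, rfl⟩ | ⟨σ, h, rfl⟩) <;> simp [h]
    · intro h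
      cases τ with
      | nil => simp at h
      | cons b τ =>
        have h1 : τ.length = w := by simpa using h
        cases b
        · exact Or.inl ⟨τ, h1, rfl⟩
        · exact Or.inr ⟨τ, h1, rfl⟩

variable {Φ : Set Rule} {κ M : ℕ}

/-- goals indexed by the lists of length `w` -/
theorem Ded.all {m k : ℕ} {Γ : Set PForm} (w : ℕ) (g : List Bool → PForm)
    (h : ∀ τ : List Bool, τ.length = w → Ded Φ m k Γ {g τ}) :
    Ded Φ m (2 ^ w * k) Γ {A | ∃ τ : List Bool, τ.length = w ∧ A = g τ} := by
  refine (Ded.list (allB w) (fun τ => {g τ}) fun τ hτ => h τ ((mem_allB w τ).mp hτ)).mono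
    le_rfl ?_ (fun _ h => h) ?_
  · rw [length_allB]
  · rintro A ⟨τ, hτ, rfl⟩
    exact ⟨τ, (mem_allB w τ).mpr hτ, rfl⟩

/-- the lines `G` -/
theorem glines (hS : Sys Φ κ) :
    ∀ (u : List ℕ), u ≠ [] → 3 * u.length + 11 ≤ M → ∀ (T : ℕ → PForm), (∀ i, (T i).size ≤ 1) →
      ∀ Γ : Set PForm,
      (∀ i (hi : i < u.length), st true (T (i + 1)) (T i) (.var u[i]) ∈ Γ) →
      Ded Φ (κ * M) (2 ^ (u.length + 1) * κ) Γ {A | ∃ τ : List Bool, τ.length = u.length ∧
        A = .or (Kc u τ) (eqp (pb τ) (T u.length) (T 0))}
  | [], h, _, _, _, _, _ => absurd rfl h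
  | [y], _, hM, T, hT, Γ, hΓ => by
      have h1 := hΓ 0 (by simp)
      refine (Ded.all (k := κ) 1 (fun τ => .or (Kc [y] τ) (eqp (pb τ) (T 1) (T 0))) ?_).mono
        le_rfl ?_ (fun _ h => h) (fun _ h => h)
      · intro τ hτ
        match τ, hτ with
        | [b], _ =>
          have h2 : pb [b] = b := by cases b <;> rfl
          rw [h2, Kc_single]
          refine hS.last (by omega) b ?_ h1
          have h3 := hT 1
          have h4 := hT 0
          simp only [List.mem_cons, List.not_mem_nil, or_false, forall_eq_or_imp, forall_eq,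
            PForm.size]
          refine ⟨by omega, by omega, by omega⟩
      · simp only [List.length_cons, List.length_nil]
        exact Nat.mul_le_mul_right κ (by norm_num)
  | y :: z :: u, _, hM, T, hT, Γ, hΓ => by
      have ih := glines hS (z :: u) (by simp) (by
        simp only [List.length_cons] at hM ⊢
        omega) (fun i => T (i + 1)) (fun i => hT _) Γ (by
        intro i hi
        have := hΓ (i + 1) (by
          simp only [List.length_cons] at hi ⊢
          omega)
        simpa using this)
      have h2 : Ded Φ (κ * M) (2 ^ (z :: u).length * κ + 2 ^ (z :: u).length * κ)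
          (Γ ∪ {A | ∃ τ : List Bool, τ.length = (z :: u).length ∧
            A = .or (Kc (z :: u) τ) (eqp (pb τ) (T ((z :: u).length + 1)) (T 1))})
          {A | ∃ τ : List Bool, τ.length = (y :: z :: u).length ∧
            A = .or (Kc (y :: z :: u) τ) (eqp (pb τ) (T (y :: z :: u).length) (T 0))} := by
        have h3 : ∀ b : Bool, Ded Φ (κ * M) (2 ^ (z :: u).length * κ)
            (Γ ∪ {A | ∃ τ : List Bool, τ.length = (z :: u).length ∧
              A = .or (Kc (z :: u) τ) (eqp (pb τ) (T ((z :: u).length + 1)) (T 1))})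
            {A | ∃ τ : List Bool, τ.length = (z :: u).length ∧
              A = .or (Kc (y :: z :: u) (b :: τ))
                (eqp (pb (b :: τ)) (T (y :: z :: u).length) (T 0))} := by
          intro b
          refine Ded.all _ (fun τ => .or (Kc (y :: z :: u) (b :: τ))
                (eqp (pb (b :: τ)) (T (y :: z :: u).length) (T 0))) ?_
          intro τ hτ
          match τ, hτ with
          | c :: τ, hτ =>
            rw [Kc_cons, pb_cons, Bool.xor_comm]
            have h5 := size_Kc (z :: u) (c :: τ) (by simp) hτ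
            refine hS.step (by omega) b (pb (c :: τ)) (B' := T 1) ?_
              (Or.inr ⟨c :: τ, hτ, rfl⟩) (Or.inl (hΓ 0 (by simp)))
            have h3 := hT (y :: z :: u).length
            have h4 := hT 1
            have h6 := hT 0
            simp only [List.mem_cons, List.not_mem_nil, or_false, forall_eq_or_imp, forall_eq,
              PForm.size]
            simp only [List.length_cons] at hM h5 h3 ⊢
            refine ⟨by omega, by omega, by omega, by omega, by omega⟩
        refine ((h3 false).union (h3 true)).mono le_rfl le_rfl (fun _ h => h) ?_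
        rintro A ⟨τ, hτ, rfl⟩
        match τ, hτ with
        | b :: τ, hτ =>
          have h4 : τ.length = (z :: u).length := by simpa using hτ
          cases b
          · exact Or.inl ⟨τ, h4, rfl⟩
          · exact Or.inr ⟨τ, h4, rfl⟩
      refine (ih.trans h2).mono le_rfl ?_ (fun _ h => h) (fun _ h => Or.inr h)
      simp only [List.length_cons]
      rw [pow_succ _ (u.length + 1 + 1)]
      ring_nf
      exact le_rfl

/-- the merging -/
theorem merging (hS : Sys Φ κ) (G : PForm) (hG : G.size ≤ M) :
    ∀ (u : List ℕ), u ≠ [] → 3 * u.length + 11 ≤ M → ∀ Γ : Set PForm,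
      (∀ τ : List Bool, τ.length = u.length → PForm.or (Kc u τ) G ∈ Γ) →
      Ded Φ (κ * M) (2 ^ u.length * κ) Γ {G}
  | [], h, _, _, _ => absurd rfl h
  | [y], _, hM, Γ, hΓ => by
      refine (hS.mlast (by omega) (y := .var y) ?_ hG (hΓ [false] rfl) (hΓ [true] rfl)).mono
        le_rfl ?_ (fun _ h => h) (fun _ h => h)
      · simp only [PForm.size]; omega
      · simp only [List.length_cons, List.length_nil]
        omega
  | y :: z :: u, _, hM, Γ, hΓ => by
      have h1 : Ded Φ (κ * M) (2 ^ (z :: u).length * κ) Γ
          {A | ∃ τ : List Bool, τ.length = (z :: u).length ∧ A = .or (Kc (z :: u) τ) G} := by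
        refine Ded.all _ (fun τ => .or (Kc (z :: u) τ) G) ?_
        intro τ hτ
        match τ, hτ with
        | c :: τ, hτ =>
          have h5 := size_Kc (z :: u) (c :: τ) (by simp) hτ
          refine hS.merge (by omega) (y := .var y) ?_ ?_ hG
            (hΓ (false :: c :: τ) (by simpa using hτ)) (hΓ (true :: c :: τ) (by simpa using hτ))
          · simp only [PForm.size]; omega
          · simp only [List.length_cons] at hM h5
            omega
      have h2 := merging hS G hG (z :: u) (by simp) (by
        simp only [List.length_cons] at hM ⊢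
        omega) {A | ∃ τ : List Bool, τ.length = (z :: u).length ∧
            A = .or (Kc (z :: u) τ) G} (fun τ hτ => ⟨τ, hτ, rfl⟩)
      refine (h1.cut h2).mono le_rfl ?_ (fun _ h => h) (fun _ h => h)
      simp only [List.length_cons]
      rw [pow_succ _ (u.length + 1)]
      ring_nf
      exact le_rfl

/-- the parity condition of a vertex -/
theorem vertex (hS : Sys Φ κ) (u : List ℕ) (hu : u ≠ []) (hM : 3 * u.length + 11 ≤ M)
    (T : ℕ → PForm) (hT : ∀ i, (T i).size ≤ 1) (Γ : Set PForm)
    (hΓ : ∀ i (hi : i < u.length), st true (T (i + 1)) (T i) (.var u[i]) ∈ Γ)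
    (hK : ∀ τ : List Bool, τ.length = u.length → pb τ = false → Kc u τ ∈ Γ) :
    Ded Φ (κ * M) (2 ^ (u.length + 2) * κ) Γ {eqp true (T u.length) (T 0)} := by
  set G := eqp true (T u.length) (T 0) with hG
  have hGs : G.size ≤ M := by
    have h1 := hT u.length
    have h2 := hT 0
    simp only [hG, eqp, cond_true, eqv, PForm.size]
    omega
  have h1 := glines hS u hu hM T hT Γ hΓ
  have h2 : Ded Φ (κ * M) (2 ^ u.length * κ) Γ {A | ∃ τ : List Bool, τ.length = u.length ∧
      pb τ = false ∧ A = .or (Kc u τ) G} := by
    refine (Ded.list (n := κ) ((allB u.length).filter (fun τ => pb τ = false))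
      (fun τ => {.or (Kc u τ) G}) ?_).mono le_rfl ?_ (fun _ h => h) ?_
    · intro τ hτ
      rw [List.mem_filter, mem_allB] at hτ
      have h3 := size_Kc u τ hu hτ.1
      exact hS.weak (by omega) (by omega) hGs (hK τ hτ.1 (by simpa using hτ.2))
    · refine Nat.mul_le_mul_right κ ?_
      rw [← length_allB]
      exact List.length_filter_le _ _
    · rintro A ⟨τ, h3, h4, rfl⟩
      refine ⟨τ, ?_, rfl⟩
      rw [List.mem_filter, mem_allB]
      exact ⟨h3, by simpa using h4⟩
  have h3 := merging hS G hGs u hu hM _ (fun τ hτ => by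
    by_cases h4 : pb τ = false
    · exact Or.inr ⟨τ, hτ, h4, rfl⟩
    · have h5 : pb τ = true := by simpa using h4
      refine Or.inl ⟨τ, hτ, ?_⟩
      rw [h5] : ∀ τ : List Bool, τ.length = u.length → PForm.or (Kc u τ) G ∈
        ({A | ∃ τ : List Bool, τ.length = u.length ∧
          A = .or (Kc u τ) (eqp (pb τ) (T u.length) (T 0))} ∪
        {A | ∃ τ : List Bool, τ.length = u.length ∧ pb τ = false ∧ A = .or (Kc u τ) G}))
  refine ((h1.union h2).cut h3).mono le_rfl ?_ (fun _ h => h) (fun _ h => h)
  rw [pow_succ _ (u.length + 1), pow_succ _ u.length]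
  ring_nf
  exact le_rfl

end Pool.Agent.T9h90.EF
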